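import Pool.Agent.BoltzM.Solver.Main

/-!
The linear solver with one more generator: a bilinear operator whose first slot is a smooth
periodic coefficient.
-/

set_option autoImplicit false

open Set Filter Topology Finset Pool.Agent.BoltzM.BoltzC

noncomputable section

namespace Pool.Agent.BoltzM.Solver

variable [Dim]

/-- Facts on a bilinear operator whose first slot is used as a coefficient. -/
structure BilData (d : SV → ℝ) (Γ : SV →ₗ[ℝ] SV →ₗ[ℝ] SV) : Prop where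
  cont : Continuous fun q : SV × SV => Γ q.1 q.2
  leib : ∀ j φ f, ap j (Γ φ f) = Γ (ap j φ) f + Γ φ (ap j f)
  tri : ∃ (p : ℕ) (C : ℝ), 0 ≤ C ∧ ∀ φ f h (l : ℝ), 0 < l →
    |ip (Γ φ f) h| ≤ C * √(nA p φ) * (l * d f + l⁻¹ * d h)
  bdd : ∃ (m : ℕ) (C : ℝ), 0 ≤ C ∧ ∀ φ f, ip (Γ φ f) (Γ φ f) ≤ C * nA m φ * nA m f

variable {Γ : SV →ₗ[ℝ] SV →ₗ[ℝ] SV} {P0 P1 : (SV →L[ℝ] SV) → Prop} {d : SV → ℝ}

/-- Coefficient times the bilinear operator with a given first slot. -/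
def tb (hc : Continuous fun q : SV × SV => Γ q.1 q.2) (c : Cf) (φ : Vf) (s : ℝ) :
    XS →ₗ[ℝ] XS where
  toFun G := ⟨fun x => c.c s x • Γ (φ.f s x) (G.1 x),
    (c.sm.slice s).smul (Sm.bilin Γ hc (φ.sm.slice s) (XS.sm G)),
    fun i x => by simp only [c.per s i x, φ.per s i x, XS.per G i x]⟩
  map_add' G H := Subtype.ext (funext fun x => by simp)
  map_smul' a G := Subtype.ext (funext fun x => by
    simp only [Submodule.coe_smul, Pi.smul_apply, map_smul, RingHom.id_apply]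
    exact smul_comm _ _ _)

lemma tb_apply (hc : Continuous fun q : SV × SV => Γ q.1 q.2) (c : Cf) (φ : Vf) (s : ℝ)
    (G : XS) (x : E3) : (tb hc c φ s G).1 x = c.c s x • Γ (φ.f s x) (G.1 x) := rfl

lemma ad_tb_inl (hc : Continuous fun q : SV × SV => Γ q.1 q.2) (c : Cf) (φ : Vf) (i : Ix) :
    ad (ZX (Sum.inl i)) (tb hc c φ) = tb hc (c.d i) φ + tb hc c (φ.Z (Sum.inl i)) := by
  funext s
  ext G x : 3
  have h1 := congrFun (dX_smul (c.sm.slice s).dif
    (Sm.bilin Γ hc (φ.sm.slice s) (XS.sm G)).dif i) x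
  have h2 := congrFun (dX_bilin Γ hc (φ.sm.slice s).dif (XS.sm G).dif i) x
  change dX i (fun x => c.c s x • Γ (φ.f s x) (G.1 x)) x -
    c.c s x • Γ (φ.f s x) (dX i G.1 x) =
      dX i (c.c s) x • Γ (φ.f s x) (G.1 x) + c.c s x • Γ (dX i (φ.f s) x) (G.1 x)
  rw [h1, h2, smul_add]
  abel

lemma ad_tb_inr (h : BilData d Γ) (c : Cf) (φ : Vf) (j : Ix) :
    ad (ZX (Sum.inr j)) (tb h.cont c φ) = tb h.cont c (φ.Z (Sum.inr j)) := by
  funext s
  ext G x : 3
  change ap j (c.c s x • Γ (φ.f s x) (G.1 x)) - c.c s x • Γ (φ.f s x) (ap j (G.1 x)) =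
    c.c s x • Γ (ap j (φ.f s x)) (G.1 x)
  rw [map_smul, h.leib, smul_add]
  abel

/-- The enlarged class of operators. -/
inductive Gen2 (P0 P1 : (SV →L[ℝ] SV) → Prop) (hc : Continuous fun q : SV × SV => Γ q.1 q.2) :
    (ℝ → XS →ₗ[ℝ] XS) → Prop
  | base {A : ℝ → XS →ₗ[ℝ] XS} : Gen P0 P1 A → Gen2 P0 P1 hc A
  | tb (c : Cf) (φ : Vf) : Gen2 P0 P1 hc (tb hc c φ)
  | add {A A' : ℝ → XS →ₗ[ℝ] XS} : Gen2 P0 P1 hc A → Gen2 P0 P1 hc A' → Gen2 P0 P1 hc (A + A')

lemma Gen2.ad (h : BilData d Γ) (h0 : ∀ B, P0 B → ∀ j, P0 (adV j B))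
    (h1 : ∀ B, P1 B → ∀ j, P1 (adV j B)) {A : ℝ → XS →ₗ[ℝ] XS} (hA : Gen2 P0 P1 h.cont A)
    (z : Ix ⊕ Ix) : Gen2 P0 P1 h.cont (ad (ZX z) A) := by
  induction hA with
  | base hA => exact .base (hA.ad h0 h1 z)
  | tb c φ =>
    rcases z with i | j
    · rw [ad_tb_inl]; exact (Gen2.tb _ _).add (.tb _ _)
    · rw [ad_tb_inr h]; exact .tb _ _
  | @add A A' _ _ ih ih' =>
    have e : Solver.ad (ZX z) (A + A') = Solver.ad (ZX z) A + Solver.ad (ZX z) A' := by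
      funext s; ext1 G
      simp only [ad_apply, Pi.add_apply, LinearMap.add_apply, map_add]; abel
    rw [e]; exact ih.add ih'

lemma Gen2.weak {hc : Continuous fun q : SV × SV => Γ q.1 q.2} {A : ℝ → XS →ₗ[ℝ] XS}
    (hA : Gen2 P0 P1 hc A) (G H : XS) : Continuous fun s => bX.B (A s G) H := by
  induction hA with
  | base hA => exact hA.weak G H
  | tb c φ =>
    exact ((c.sm.smul (SmC.bilin Γ hc φ.sm (XS.sm G).smC)).ip (XS.sm H).smC).continuous_tint
  | add _ _ ih ih' =>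
    simp only [Pi.add_apply, LinearMap.add_apply, map_add]
    exact ih.add ih'

lemma bX_tb (hc : Continuous fun q : SV × SV => Γ q.1 q.2) (c : Cf) (φ : Vf) (s : ℝ)
    (G H : XS) : bX.B (tb hc c φ s G) H =
      tint fun x => c.c s x * ip (Γ (φ.f s x) (G.1 x)) (H.1 x) :=
  tint_congr fun x => by rw [tb_apply, map_smul, LinearMap.smul_apply, smul_eq_mul]

lemma tame_tb (h : BilData d Γ) (hdc : Continuous d) (hd : ∀ f, 0 ≤ d f) (c : Cf) (φ : Vf)
    (a b : ℝ) : Tame ZX bX (dI d) (Icc a b) (tb h.cont c φ) := by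
  have hdd := dd_nonneg hd
  intro ε hε
  obtain ⟨M, hM, hM'⟩ := c.bound a b
  obtain ⟨p, C, hC0, hC⟩ := h.tri
  obtain ⟨N, hN, hN'⟩ := exists_bound_nA φ.sm.cont φ.per p (isCompact_Icc (a := a) (b := b))
  set K := C * √N + 1 with hK
  have hK0 : 0 < K := by positivity
  set l := K * M / ε with hl
  have hl0 : 0 < l := by positivity
  refine ⟨M * (K * l), by positivity, fun s hs G H => ?_⟩
  rw [bX_tb]
  refine (abs_tint_mul_le hdc (α := K * l) (β := K * l⁻¹) (γ := 0) (δ := 0) G H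
    (hM' s hs) fun x => ?_).trans ?_
  · have h1 : C * √(nA p (φ.f s x)) ≤ K :=
      (mul_le_mul_of_nonneg_left (Real.sqrt_le_sqrt (hN' s hs x)) hC0).trans (by linarith)
    have h2 := mul_le_mul_of_nonneg_right h1 (add_nonneg (mul_nonneg hl0.le (hd (G.1 x)))
      (mul_nonneg (inv_pos.2 hl0).le (hd (H.1 x))))
    linarith [hC (φ.f s x) (G.1 x) (H.1 x) l hl0]
  · have e : M * (K * l⁻¹) = ε := by rw [hl]; field_simp
    have hp : 0 ≤ M * (K * l) := by positivity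
    have h2 := mul_nonneg hε.le (sq_nonneg' (Z := ZX) hdd 2 G)
    have h3 := mul_nonneg hp (sq_nonneg' (Z := ZX) (d := nX) bX.nonneg 2 G)
    have h4 := mul_nonneg hp (bX.nonneg H)
    calc _ = (M * (K * l⁻¹)) * dI d H + M * (K * l) * dI d G := by ring
      _ ≤ _ := by rw [e]; linarith

theorem Gen2.tame (h : BilData d Γ) (hdc : Continuous d) (hd : ∀ f, 0 ≤ d f)
    (h0 : ∀ B, P0 B → V0 d B) (h1 : ∀ B, P1 B → V1 d B) (a b : ℝ) {A : ℝ → XS →ₗ[ℝ] XS}
    (hA : Gen2 P0 P1 h.cont A) : Tame ZX bX (dI d) (Icc a b) A := by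
  induction hA with
  | base hA => exact hA.tame hdc hd h0 h1 a b
  | tb c φ => exact tame_tb h hdc hd c φ a b
  | add _ _ ih ih' =>
    intro ε hε
    obtain ⟨C1, hC1, h2⟩ := ih (ε / 2) (by positivity)
    obtain ⟨C2, hC2, h3⟩ := ih' (ε / 2) (by positivity)
    refine ⟨C1 + C2, by positivity, fun s hs G H => ?_⟩
    simp only [Pi.add_apply, LinearMap.add_apply, map_add]
    refine (abs_add_le _ _).trans ?_
    linarith [h2 s hs G H, h3 s hs G H]

lemma bdd_tb (h : BilData d Γ) (c : Cf) (φ : Vf) (a b : ℝ) :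
    Bdd ZX bX (Icc a b) (tb h.cont c φ) := by
  obtain ⟨M, hM, hM'⟩ := c.bound a b
  obtain ⟨m, C, hC, hb⟩ := h.bdd
  obtain ⟨N, hN, hN'⟩ := exists_bound_nA φ.sm.cont φ.per m (isCompact_Icc (a := a) (b := b))
  refine ⟨m + 1, M ^ 2 * (C * N), by positivity, fun s hs G => ?_⟩
  have h1 : bX.B (tb h.cont c φ s G) (tb h.cont c φ s G) ≤
      M ^ 2 * (C * N) * tint fun x => nA m (G.1 x) := by
    rw [← tint_const_mul]
    refine tint_mono (XS.cont_ip _ _) (continuous_const.mul ((XS.sm _).nA m).cont) fun x => ?_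
    simp only [tb_apply, map_smul, LinearMap.smul_apply, smul_eq_mul]
    have h2 : c.c s x ^ 2 ≤ M ^ 2 := by
      rw [← sq_abs]; exact pow_le_pow_left₀ (abs_nonneg _) (hM' s hs x) 2
    have h3 : ip (Γ (φ.f s x) (G.1 x)) (Γ (φ.f s x) (G.1 x)) ≤ C * N * nA m (G.1 x) :=
      (hb _ _).trans (mul_le_mul_of_nonneg_right (mul_le_mul_of_nonneg_left (hN' s hs x) hC)
        (nA_nonneg _ _))
    have h4 := mul_le_mul h2 h3 (ip_self_nonneg _) (sq_nonneg M)
    nlinarith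
  refine h1.trans (mul_le_mul_of_nonneg_left ?_ (by positivity))
  exact (tint_nA_le m _).trans (lq_le_sq bX.nonneg _ _)

theorem Gen2.bdd (h : BilData d Γ) (a b : ℝ) {A : ℝ → XS →ₗ[ℝ] XS}
    (hA : Gen2 P0 P1 h.cont A) : Bdd ZX bX (Icc a b) A := by
  induction hA with
  | base hA => exact hA.bdd a b
  | tb c φ => exact bdd_tb h c φ a b
  | @add A A' _ _ ih ih' =>
    obtain ⟨m1, C1, hC1, h2⟩ := ih
    obtain ⟨m2, C2, hC2, h3⟩ := ih'
    refine ⟨m1 + m2, 2 * C1 + 2 * C2, by positivity, fun s hs G => ?_⟩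
    have h4 := lq_add_le (Z := ZX) bX 0 (A s G) (A' s G)
    have h5 := mul_le_mul_of_nonneg_left
      (sq_mono (Z := ZX) (d := nX) bX.nonneg (Nat.le_add_right m1 m2) G) hC1
    have h6 := mul_le_mul_of_nonneg_left
      (sq_mono (Z := ZX) (d := nX) bX.nonneg (Nat.le_add_left m2 m1) G) hC2
    simp only [lq] at h4
    simp only [Pi.add_apply, LinearMap.add_apply]
    linarith [h2 s hs G, h3 s hs G]

/-- Pointwise coercivity, locally uniformly in time. -/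
def Coer (d : SV → ℝ) (s0 : ℝ) (A : ℝ → XS →ₗ[ℝ] XS) : Prop :=
  ∀ a', ∃ κ C : ℝ, 0 < κ ∧ ∀ s ∈ Icc s0 a', ∀ (H : XS) (x : E3),
    κ * d (H.1 x) - C * ip (H.1 x) (H.1 x) ≤ ip ((A s H).1 x) (H.1 x)

/-- The general solver: a lower order part and a coercive part, both in the enlarged class. -/
theorem solver_gen2 (h : BilData d Γ) (hdc : Continuous d) (hd : ∀ f, 0 ≤ d f)
    (h0 : ∀ B, P0 B → V0 d B ∧ ∀ j, P0 (adV j B)) (h1 : ∀ B, P1 B → V1 d B ∧ ∀ j, P1 (adV j B))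
    {A A' : ℝ → XS →ₗ[ℝ] XS} (hA : Adm P0 P1 d A) (hA' : Gen2 P0 P1 h.cont A') (s0 : ℝ)
    (hco : Coer d s0 A') (F : Vf) (g0 : XS) :
    ∃ g g' : ℝ → XS, SmD (fun s => (g s).1) (fun s => (g' s).1) ∧ g s0 = g0 ∧
      ∀ s, s0 ≤ s → ∀ x, (g' s).1 x + (A s (g s)).1 x + (A' s (g s)).1 x = F.f s x := by
  have hG : Gen2 P0 P1 h.cont (A + A') := (Gen2.base hA.gen).add hA'
  obtain ⟨g, g', h2, h3, h4⟩ := galerkin_Z bX ZX ZsX adjX WX shiftX ZX_mem ZsX_mem
    (fun N => (N, N)) (fun N => inferInstance) (fun z N => ZsX_mem_self z _) specX XS_complete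
    (dI d) (dd_nonneg hd) (A + A') F.at s0 g0 hG.weak F.continuous_B'
    (F.bdd_lev s0) (Gen2 P0 P1 h.cont) hG
    (fun A hA => hA.ad h (fun B hB => (h0 B hB).2) fun B hB => (h1 B hB).2)
    (fun a' A hA => hA.tame h hdc hd (fun B hB => (h0 B hB).1) (fun B hB => (h1 B hB).1) s0 a')
    (fun a' A hA => hA.bdd h s0 a')
    (fun a' => by
      obtain ⟨κ, M, hκ, hM⟩ := hco a'
      obtain ⟨C, hC, h⟩ := hA.low s0 a' (κ / 2) (by positivity)
      refine ⟨κ / 2, C + M, by positivity, fun s hs H => ?_⟩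
      have c1 : Continuous fun x => κ * d (H.1 x) :=
        continuous_const.mul (hdc.comp (XS.sm H).cont)
      have c2 : Continuous fun x => M * ip (H.1 x) (H.1 x) :=
        continuous_const.mul (XS.cont_ip _ _)
      have h5 : κ * dI d H - M * bX.B H H ≤ bX.B (A' s H) H := by
        rw [dI, bX_B, bX_B, ← tint_const_mul, ← tint_const_mul, ← tint_sub c1 c2]
        exact tint_mono (c1.sub c2) (XS.cont_ip _ _) fun x => hM s hs H x
      simp only [Pi.add_apply, LinearMap.add_apply, map_add]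
      linarith [(abs_le.1 (h s hs H)).1])
  refine ⟨g, g', smD_of_lev h4, h2, fun s hs x => ?_⟩
  rw [h3 s hs]
  change F.f s x - ((A s (g s)).1 x + (A' s (g s)).1 x) + _ + _ = _
  abel

end Pool.Agent.BoltzM.Solver
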