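import Pool.Agent.BoltzM.Solver.Twin

/-!
The damped kinetic solver and the solver for the hot part.
-/

set_option autoImplicit false

open MeasureTheory Filter Topology Finset Pool.Agent.BoltzM.BoltzC

noncomputable section

namespace Pool.Agent.BoltzM.Solver

variable [Dim]

/-- The transport operator built from a rule `T` for the terms. -/
def trOp {F : ℝ → Fld} (hF : FldC F)
    (T : Cf → List Ix → Ix ⊕ Ix → ℝ → XS →ₗ[ℝ] XS) : ℝ → XS →ₗ[ℝ] XS :=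
  ∑ i, (T ⟨_, hF.u i, fun s => ((hF.reg s).u i).2⟩ [] (Sum.inl i) +
      T ⟨_, hF.c, fun s => (hF.reg s).c.2⟩ [i] (Sum.inl i)) +
    -(∑ j, T ⟨_, hF.b0 j, fun s => ((hF.reg s).b0 j).2⟩ [] (Sum.inr j) +
      ∑ i, ∑ j, T ⟨_, hF.b1 i j, fun s => ((hF.reg s).b1 i j).2⟩ [i] (Sum.inr j) +
      ∑ i, ∑ j, T ⟨_, hF.b2 i, fun s => ((hF.reg s).b2 i).2⟩ [i, j] (Sum.inr j))

lemma adm_trOp {P0 P1 : (SV →L[ℝ] SV) → Prop} {d : SV → ℝ} (hd : ∀ f, 0 ≤ d f) {F : ℝ → Fld}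
    (hF : FldC F) {T : Cf → List Ix → Ix ⊕ Ix → ℝ → XS →ₗ[ℝ] XS}
    (hT : ∀ c α z, α.length ≤ 2 → Adm P0 P1 d (T c α z)) : Adm P0 P1 d (trOp hF T) :=
  (Adm.sum hd _ fun _ => (hT _ _ _ (by simp)).add (hT _ _ _ (by simp))).add
    (((Adm.sum hd _ fun _ => hT _ _ _ (by simp)).add
      (Adm.sum hd _ fun _ => Adm.sum hd _ fun _ => hT _ _ _ (by simp))).add
      (Adm.sum hd _ fun _ => Adm.sum hd _ fun _ => hT _ _ _ (by simp))).neg

lemma trOp_apply {F : ℝ → Fld} (hF : FldC F)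
    {T : Cf → List Ix → Ix ⊕ Ix → ℝ → XS →ₗ[ℝ] XS} (R : SV →L[ℝ] SV) {s : ℝ}
    {G H : XS} {x : E3}
    (hT : ∀ c α z, (T c α z s G).1 x = c.c s x • R (mulW α (Zl z H.1 x))) :
    (trOp hF T s G).1 x = R ((F s).tr H.1 x) := by
  simp only [trOp, Pi.add_apply, Pi.neg_apply, Finset.sum_apply, LinearMap.add_apply,
    LinearMap.neg_apply, LinearMap.sum_apply, Submodule.coe_add, Submodule.coe_neg,
    Submodule.coe_sum, hT, Fld.tr, Fld.vel, map_add, map_neg, map_sum, map_smul, mulW_cons,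
    mulW_nil, Zl]

/-- Functionals represented by a smooth family. -/
def Rep (l : ℝ → XS → ℝ) : Prop := ∃ ψ : Vf, ∀ s G, l s G = bX.B (ψ.at s) G

lemma Rep.sum {ι : Type*} (S : Finset ι) {l : ι → ℝ → XS → ℝ} (h : ∀ i, Rep (l i)) :
    Rep fun s G => ∑ i ∈ S, l i s G := by
  choose ψ hψ using h
  refine ⟨⟨fun s x => ∑ i ∈ S, (ψ i).f s x, SmC.sum S fun i _ => (ψ i).sm,
    fun s => Per.sum S fun i _ => (ψ i).per s⟩, fun s G => ?_⟩
  simp only [hψ]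
  rw [← LinearMap.sum_apply, ← map_sum]
  congr 2
  exact Subtype.ext (funext fun x => by simp [Vf.at])

lemma Rep.DW (u : List Ix) {l : ℝ → XS → ℝ} (h : Rep l) : Rep fun s G => l s (DW u G) := by
  induction u with
  | nil => exact h
  | cons i u ih =>
    obtain ⟨ψ, hψ⟩ := ih
    refine ⟨ψ.Zs (Sum.inl i), fun s G => ?_⟩
    rw [Vf.Zs_at, bX.symm, ← adjX, bX.symm]
    exact hψ s (opD i G)

lemma rep_En (n : ℕ) (θ C0 : ℝ) (w σ : Cf) (φ : Vf) :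
    Rep fun s G => C0 * En n θ (w.c s) (σ.c s) (φ.f s) G.1 := by
  have hσ : ∀ j : ℕ, SmC fun s x => σ.c s x ^ j := by
    intro j
    induction j with
    | zero => simpa using SmC.const (1 : ℝ)
    | succ j ih => simpa only [pow_succ] using ih.mul σ.sm
  let ψ : ℕ → ℕ → List Ix → Vf := fun j m u =>
    ⟨fun s x => (C0 * θ ^ (j + m) * (w.c s x * σ.c s x ^ (2 * j))) • RR m (dXw u (φ.f s) x),
      ((SmC.const _).mul (w.sm.mul (hσ _))).smul ((φ.sm.dXw u).clm _),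
      fun s i x => by simp only [w.per s i x, σ.per s i x, (φ.per s).dXw u i x]⟩
  obtain ⟨χ, hχ⟩ := Rep.sum (range (n + 1)) fun j => Rep.sum (range (n + 1 - j)) fun m =>
    Rep.sum (words j) fun u => Rep.DW u (l := fun s G => bX.B ((ψ j m u).at s) G)
      ⟨ψ j m u, fun _ _ => rfl⟩
  refine ⟨χ, fun s G => ?_⟩
  rw [← hχ]
  have hc : ∀ j m u, Continuous fun x => ip (((ψ j m u).at s).1 x) ((DW u G).1 x) :=
    fun j m u => XS.cont_ip _ _
  simp only [bX_B]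
  simp only [← tint_sum _ fun u _ => hc _ _ u]
  simp only [← tint_sum _ fun m _ => continuous_finsetSum _ fun u _ => hc _ m u]
  rw [← tint_sum _ fun j _ => continuous_finsetSum _ fun m _ =>
    continuous_finsetSum _ fun u _ => hc j m u, En, ← tint_const_mul]
  refine tint_congr fun x => ?_
  simp only [bb, BoltzM.lev, mul_sum, Vf.at, ψ, DW_val, map_smul, LinearMap.smul_apply,
    smul_eq_mul, ip_RR_symm]
  refine sum_congr rfl fun j _ => sum_congr rfl fun m _ => sum_congr rfl fun u _ => ?_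
  ring

/-- The collision operator with a fixed first argument. -/
def gam (Q : CollOp) (φ : SV) : SV →L[ℝ] SV :=
  ⟨Q.G φ, Q.cont.comp (continuous_const.prodMk continuous_id)⟩

lemma neg_gam (Q : CollOp) (f : SV) : -gam Q sqMS f = Q.L f := (Q.L_eq f).symm

lemma neg_ip_gam (Q : CollOp) (f : SV) : -ip (gam Q sqMS f) f = ip (Q.L f) f := by
  rw [← neg_gam, map_neg, LinearMap.neg_apply]

lemma cd0_gam (Q : CollOp) : CD0 (gam Q) where
  leib := Q.leib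
  dis_nonneg f := by
    obtain ⟨lam, h1, h2⟩ := Q.gap
    rw [neg_ip_gam]
    exact (mul_nonneg h1.le (ip_self_nonneg _)).trans (h2 f)
  tri φ := by
    obtain ⟨C, hC, h⟩ := Q.tri
    refine ⟨C * √(nA Q.p φ), fun f g => ?_⟩
    rw [neg_ip_gam, neg_ip_gam]
    change |ip (Q.G φ f) g| ≤ _
    rw [Q.symm]
    refine (h f φ g).trans ?_
    gcongr
    linarith [ip_self_nonneg g]

lemma dq0_gam (Q : CollOp) (f : SV) : dq0 (gam Q) f = Q.dq f := by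
  rw [dq0, neg_ip_gam, CollOp.dq]

lemma Jw_four : Jw 4 = w8 := by
  ext f v
  rw [Jw_apply, w8_apply, ← Real.rpow_natCast]; norm_num

lemma Ds_eq : Ds = dmp := by
  ext1 f; rw [Ds_apply, dmp_apply, Jw_four]

lemma Sq_eq : Sq = mulS sqMS := by
  ext f v; rw [Sq_apply, mulS_apply, sqMS_apply]

/-- A jointly continuous bilinear map is bounded by one of the norms `nA`. -/
lemma bdd_of_cont {G : SV →ₗ[ℝ] SV →ₗ[ℝ] SV} (hG : Continuous fun q : SV × SV => G q.1 q.2) :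
    ∃ (m : ℕ) (C : ℝ), 0 ≤ C ∧ ∀ φ f, ip (G φ f) (G φ f) ≤ C * nA m φ * nA m f := by
  by_contra hc
  push Not at hc
  choose a b hab using fun m : ℕ => hc m (((m : ℝ) + 1) ^ 2) (by positivity)
  have pos : ∀ (m : ℕ) (f : SV), f ≠ 0 → 0 < nA m f := fun m f hf =>
    lt_of_lt_of_le (lt_of_le_of_ne (nA_nonneg 0 f) fun h => hf (ip_self_eq_zero
      (by simpa [nA, words] using h.symm))) (nA_mono (Nat.zero_le m) f)
  have ha : ∀ m, 0 < nA m (a m) := fun m => pos m _ fun h => by simpa [h] using hab m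
  have hb : ∀ m, 0 < nA m (b m) := fun m => pos m _ fun h => by simpa [h] using hab m
  have key : ∀ c : ℕ → SV, (∀ m, 0 < nA m (c m)) →
      Tendsto (fun m : ℕ => (√(((m : ℝ) + 1) * nA m (c m)))⁻¹ • c m) atTop (𝓝 0) := by
    intro c h
    refine tendsto_SV_iff.2 fun k => squeeze_zero' (Eventually.of_forall fun m => nA_nonneg _ _)
      ((eventually_ge_atTop k).mono fun m hm => ?_) tendsto_one_div_add_atTop_nhds_zero_nat
    have h1 := h m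
    rw [sub_zero]
    refine (nA_mono hm _).trans (le_of_eq ?_)
    rw [nA_smul, inv_pow, Real.sq_sqrt (by positivity)]
    field_simp
  have h1 := (hG.tendsto (0, 0)).comp ((key a ha).prodMk_nhds (key b hb))
  have h2 := (continuous_ip.tendsto (_, _)).comp (h1.prodMk_nhds h1)
  simp only [map_zero] at h2
  obtain ⟨m, hm⟩ := (h2.eventually (gt_mem_nhds one_pos)).exists
  simp only [Function.comp, map_smul, LinearMap.smul_apply, smul_eq_mul] at hm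
  have h3 := ha m
  have h4 := hb m
  have h5 := Real.mul_self_sqrt (show 0 ≤ ((m : ℝ) + 1) * nA m (a m) by positivity)
  have h6 := Real.mul_self_sqrt (show 0 ≤ ((m : ℝ) + 1) * nA m (b m) by positivity)
  have h7 := Real.sqrt_pos.2 (show 0 < ((m : ℝ) + 1) * nA m (a m) by positivity)
  have h8 := Real.sqrt_pos.2 (show 0 < ((m : ℝ) + 1) * nA m (b m) by positivity)
  set x := √(((m : ℝ) + 1) * nA m (a m))
  set y := √(((m : ℝ) + 1) * nA m (b m))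
  have h9 : ip (G (a m) (b m)) (G (a m) (b m)) < x * x * (y * y) := by
    have := mul_lt_mul_of_pos_left hm (show 0 < x * x * (y * y) by positivity)
    field_simp at this
    nlinarith
  rw [h5, h6] at h9
  nlinarith [hab m]

lemma bilData_G1 (Q : CollOp) : BilData (d8 (gam Q)) Q.G1 := by
  obtain ⟨C, hC, h⟩ := Q.tri1
  refine ⟨Q.cont1, Q.leib1, ⟨Q.p, C, hC.le, fun φ f g l hl => ?_⟩, bdd_of_cont Q.cont1⟩
  refine tri_scale d8_smul (fun f g => (h φ f g).trans ?_) f g hl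
  have h1 := dq0_le_d8 (Γ := gam Q) f
  have h2 := dq0_le_d8 (Γ := gam Q) g
  have h3 := Real.sq_sqrt ((cd0_gam Q).dq0_nonneg f)
  have h4 := Real.sq_sqrt ((cd0_gam Q).dq0_nonneg g)
  rw [dq0_gam] at h1 h2 h3 h4
  change C * √(nA Q.p φ) * √(Q.dq f) * √(Q.dq g) ≤ _
  rw [mul_assoc]
  refine mul_le_mul_of_nonneg_left ?_ (by positivity)
  nlinarith [sq_nonneg (√(Q.dq f) - √(Q.dq g)), mul_nonneg (Real.sqrt_nonneg (Q.dq f))
    (Real.sqrt_nonneg (Q.dq g))]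

/-- The damped kinetic solver. -/
theorem solve_damp (Q : CollOp) {F : ℝ → Fld} {k μ wt σ : ℝ → E3 → ℝ} (n : ℕ) {m : ℕ}
    (θ C0 s0 : ℝ) {φ : Fin m → ℝ → E3 → SV} {S : ℝ → E3 → SV} {g0 : E3 → SV} (hF : FldC F)
    (hk : SmC k) (hkp : ∀ s, Per (k s)) (hk0 : ∀ s, s0 ≤ s → ∀ x, 0 < k s x)
    (hμ : SmC μ) (hμp : ∀ s, Per (μ s)) (hμ0 : ∀ s, s0 ≤ s → ∀ x, 0 < μ s x)
    (hw : SmC wt) (hwp : ∀ s, Per (wt s)) (hσ : SmC σ) (hσp : ∀ s, Per (σ s))
    (hφ : ∀ i, SmC (φ i)) (hφp : ∀ i s, Per (φ i s)) (hS : SmC S) (hSp : ∀ s, Per (S s))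
    (hg : Sm g0) (hgp : Per g0) :
    ∃ g g' : ℝ → E3 → SV, SmD g g' ∧ (∀ s, Per (g s)) ∧ (∀ s, Per (g' s)) ∧ g s0 = g0 ∧
      ∀ s, s0 ≤ s → ∀ x, g' s x + (F s).tr (g s) x + k s x • Q.L (g s x) + μ s x • Ds (g s x)
        + ∑ i, (C0 * En n θ (wt s) (σ s) (φ i s) (g s)) • φ i s x = S s x := by
  have hΓ := cd0_gam Q
  have hd := hΓ.d8_nonneg
  choose ψ hψ using fun i => rep_En n θ C0 ⟨wt, hw, hwp⟩ ⟨σ, hσ, hσp⟩ ⟨φ i, hφ i, hφp i⟩
  let z : Cf := ⟨fun _ _ => 0, SmC.const _, fun _ => Per.const _⟩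
  obtain ⟨g, g', h1, h2, h3⟩ := solver_twin hΓ bilData_zero
    ((adm_trOp hd hF (T := fun c α z => tm c (mulW α) (some z))
      fun c α z hα => adm_mul hΓ c α hα (some z)).add
      (Adm.sum hd univ fun i => Adm.rk hd ⟨φ i, hφ i, hφp i⟩ (ψ i))) pc_dmp w8_le_dmp
    ⟨k, hk, hkp⟩ ⟨μ, hμ, hμp⟩ z z 0 ⟨S, hS, hSp⟩ s0 hk0 hμ0
    (fun a => ⟨0, fun s hs x f => by
      simpa using mul_nonneg (half_pos (hk0 s hs.1 x)).le (hΓ.dq0_nonneg f)⟩)
    ⟨S, hS, hSp⟩ ⟨g0, hg, hgp⟩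
  refine ⟨_, _, h1, fun s => XS.per _, fun s => XS.per _, by simp only [h2], fun s hs x => ?_⟩
  have h4 := h3 s hs x
  simp only [Pi.add_apply, LinearMap.add_apply, Submodule.coe_add] at h4
  rw [trOp_apply hF (ContinuousLinearMap.id ℝ SV) (H := g s)
    fun c α z => by rw [tm_apply, ZoX_val]; rfl] at h4
  simp only [Finset.sum_apply, LinearMap.sum_apply, Submodule.coe_sum, rk_apply,
    Submodule.coe_smul, Pi.smul_apply, ← hψ, neg_gam, ContinuousLinearMap.id_apply, z, zero_smul,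
    add_zero, ← Ds_eq] at h4
  rw [← h4]
  simp only [Vf.at]
  abel

/-- The solver for the hot part; `ρ` is the first slot of the collision operator. -/
theorem solve_hot (Q : CollOp) {F : ℝ → Fld} {k μ ν κ : ℝ → E3 → ℝ} (s0 : ℝ)
    {ρ S : ℝ → E3 → SV} {g0 : E3 → SV} (hF : FldC F)
    (hk : SmC k) (hkp : ∀ s, Per (k s)) (hk0 : ∀ s, s0 ≤ s → ∀ x, 0 < k s x)
    (hμ : SmC μ) (hμp : ∀ s, Per (μ s)) (hμ0 : ∀ s, s0 ≤ s → ∀ x, 0 < μ s x)
    (hν : SmC ν) (hνp : ∀ s, Per (ν s)) (hκ : SmC κ) (hκp : ∀ s, Per (κ s))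
    (hρ : SmC ρ) (hρp : ∀ s, Per (ρ s))
    (hdiag : ∀ a, ∃ C : ℝ, ∀ s ∈ Set.Icc s0 a, ∀ x f, κ s x * ip (Q.G1 (ρ s x) f) f ≤
      k s x / 2 * Q.dq f + C * ∫ v, (1 + ‖v‖) ^ 3 * f v ^ 2)
    (hS : SmC S) (hSp : ∀ s, Per (S s)) (hg : Sm g0) (hgp : Per g0) :
    ∃ g g' : ℝ → E3 → SV, SmD g g' ∧ (∀ s, Per (g s)) ∧ (∀ s, Per (g' s)) ∧ g s0 = g0 ∧
      ∀ s, s0 ≤ s → ∀ x, g' s x + (F s).tr (g s) x + k s x • Q.L (g s x) + ν s x • Sq (g s x)
        + μ s x • Jw 4 (g s x) - κ s x • Q.G1 (ρ s x) (g s x) = S s x := by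
  have hΓ := cd0_gam Q
  have hd := hΓ.d8_nonneg
  obtain ⟨g, g', h1, h2, h3⟩ := solver_twin hΓ (bilData_G1 Q)
    (adm_trOp hd hF (T := fun c α z => tm c (mulW α) (some z))
      fun c α z hα => adm_mul hΓ c α hα (some z)) (.mul mulC_w8)
    ⟨0, fun f => by linarith [ip_w8_nonneg f]⟩
    ⟨k, hk, hkp⟩ ⟨μ, hμ, hμp⟩ ⟨ν, hν, hνp⟩ ⟨fun s x => -κ s x, hκ.neg, fun s => (hκp s).map _⟩
    sqMS ⟨ρ, hρ, hρp⟩ s0 hk0 hμ0
    (fun a => by simpa only [dq0_gam, neg_mul, neg_neg] using hdiag a)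
    ⟨S, hS, hSp⟩ ⟨g0, hg, hgp⟩
  refine ⟨_, _, h1, fun s => XS.per _, fun s => XS.per _, by simp only [h2], fun s hs x => ?_⟩
  have h4 := h3 s hs x
  rw [trOp_apply hF (ContinuousLinearMap.id ℝ SV) (H := g s)
    fun c α z => by rw [tm_apply, ZoX_val]; rfl] at h4
  simp only [neg_gam, ContinuousLinearMap.id_apply, ← Jw_four, ← Sq_eq, neg_smul] at h4
  rw [← h4]
  abel

end Pool.Agent.BoltzM.Solver
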