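import Pool.Agent.BoltzM.Solver.Damp
import Pool.Agent.BoltzM.Spec.Bg

/-!
The kinetic and the hydrodynamic solver in the form of the specification.
-/

set_option autoImplicit false

open Finset Pool.Agent.BoltzM.BoltzC

noncomputable section

namespace Pool.Agent.BoltzM.Solver

variable [Dim]

theorem m3k : M3kStmt :=
  fun Q _ _ _ _ _ n _ θ C0 s0 _ _ _ hF hk hkp hk0 hν hνp hν0 hw hwp hσ hσp hφ hφp hS hSp hg hgp =>
    solve_damp Q n θ C0 s0 hF hk hkp (fun s _ => hk0 s) hν hνp (fun s _ => hν0 s) hw hwp hσ hσp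
      hφ hφp hS hSp hg hgp

/-- The terms of the hydrodynamic operator. -/
def tmH (c : Cf) (α : List Ix) : Ix ⊕ Ix → ℝ → XS →ₗ[ℝ] XS
  | Sum.inl i => tm c ((PP.comp (mulW α)).comp PP) (some (Sum.inl i))
  | Sum.inr j => tm c ((PP.comp ((mulW α).comp (ap j))).comp PP) none

theorem m3h : M3hStmt := by
  intro F s0 S W0 hF hS hSp hSP hW hWp hWP
  have hd : ∀ f : SV, 0 ≤ ip f f := ip_self_nonneg
  have hdc : Continuous fun f : SV => ip f f :=
    continuous_ip.comp (continuous_id.prodMk continuous_id)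
  have hA : Adm FR (fun B => B = 0) (fun f => ip f f) (trOp hF tmH) := by
    refine adm_trOp hd hF fun c α z _ => ?_
    rcases z with i | j
    · refine .tm_inl hdc c (fr_comp_PP _) i ((fr_comp_PP _).v0 hd).vd fun f h => ?_
      simp only [ContinuousLinearMap.comp_apply, ip_PP, ip_mulW]
    · exact .tm_none hdc c (fr_comp_PP _) ((fr_comp_PP _).v0 hd).vd
  obtain ⟨g, g', h1, h2, h3⟩ := solver_gen (P0 := FR) (P1 := fun B => B = 0) hdc hd
    (fun _ hB => ⟨hB.v0 hd, hB.adV⟩)
    (by
      rintro B rfl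
      refine ⟨fun ε hε => ⟨0, le_rfl, fun f h => ?_⟩, fun j => ?_⟩
      · simpa using mul_nonneg hε.le (hd h)
      · ext1 f; simp [adV_apply])
    (L := 0) rfl (fun h => by simp) hA ⟨fun _ _ => 1, SmC.const _, fun _ => Per.const _⟩ s0
    (fun _ _ _ => one_pos) ⟨S, hS, hSp⟩ ⟨W0, hW, hWp⟩
  refine ⟨_, _, h1.clm PP, fun s => (XS.per _).map _, fun s => (XS.per _).map _,
    fun s x => PP_PP _, funext fun x => by simp only [h2, hWP], fun s hs x => ?_⟩
  have h4 := h3 s hs x
  rw [trOp_apply hF PP (H := opV PP (g s)) fun c α z => by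
    rcases z with i | j
    · rw [tmH, tm_apply]
      exact congrArg (fun f => c.c s x • PP (mulW α f))
        (congrFun (congrArg Subtype.val (opD_opV i PP (g s))) x).symm
    · rfl] at h4
  have h5 := congrArg PP h4
  simp only [zero_apply, smul_zero, add_zero, map_add, PP_PP, hSP] at h5
  exact h5

end Pool.Agent.BoltzM.Solver
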