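import Pool.Agent.BoltzM.Solver.Energy

/-!
The Galerkin theorem for norms built from letters.
-/

set_option autoImplicit false

open Set Filter Topology Finset

noncomputable section

namespace Pool.Agent.BoltzM.Solver

variable [Dim]

variable {X : Type*} [AddCommGroup X] [Module ℝ X] {ι : Type*} [Fintype ι]

/-- Weighted sum of the forms of order at most `n`. -/
def levW (Z : ι → X →ₗ[ℝ] X) (b : PD X) (δ : ℕ → ℝ) (hδ : ∀ j, 0 < δ j) (n : ℕ) : PD X where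
  B := ∑ j ∈ range (n + 1), δ j • NB Z b.B j
  symm x y := by
    simp only [LinearMap.sum_apply, LinearMap.smul_apply, NB_symm Z b _ x y]
  nonneg x := by
    simp only [LinearMap.sum_apply, LinearMap.smul_apply, NB_self, smul_eq_mul]
    exact sum_nonneg fun j _ => mul_nonneg (hδ j).le (lq_nonneg b.nonneg _ _)
  defin x hx := by
    simp only [LinearMap.sum_apply, LinearMap.smul_apply, NB_self, smul_eq_mul] at hx
    have h := (sum_eq_zero_iff_of_nonneg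
      fun j _ => mul_nonneg (hδ j).le (lq_nonneg b.nonneg j x)).1 hx 0 (by simp)
    exact b.defin x ((mul_eq_zero.1 h).resolve_left (hδ 0).ne')

lemma levW_B (Z : ι → X →ₗ[ℝ] X) (b : PD X) (δ : ℕ → ℝ) (hδ : ∀ j, 0 < δ j) (n : ℕ) (x y : X) :
    (levW Z b δ hδ n).B x y = ∑ j ∈ range (n + 1), δ j * NB Z b.B j x y := by
  simp only [levW, LinearMap.sum_apply, LinearMap.smul_apply, smul_eq_mul]

/-- The form of level `n`: all words of length at most `n`. -/
def lev (Z : ι → X →ₗ[ℝ] X) (b : PD X) (n : ℕ) : PD X := levW Z b (fun _ => 1) (fun _ => one_pos) n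

lemma lev_B (Z : ι → X →ₗ[ℝ] X) (b : PD X) (n : ℕ) (x y : X) :
    (lev Z b n).B x y = ∑ j ∈ range (n + 1), NB Z b.B j x y := by
  simp only [lev, levW_B, one_mul]

lemma lev_nr_sq (Z : ι → X →ₗ[ℝ] X) (b : PD X) (n : ℕ) (x : X) :
    (lev Z b n).nr x ^ 2 = sq Z (fun x => b.B x x) (n + 1) x := by
  rw [PD.nr_sq, lev_B]; simp only [NB_self, sq]

lemma lev_zero_B (Z : ι → X →ₗ[ℝ] X) (b : PD X) (x y : X) : (lev Z b 0).B x y = b.B x y := by
  simp [lev_B, NB]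

lemma lev_nr_le {Z : ι → X →ₗ[ℝ] X} {b : PD X} {n m : ℕ} {x y : X} {C : ℝ} (hC : 0 ≤ C)
    (h : sq Z (fun x => b.B x x) (n + 1) x ≤ C * sq Z (fun x => b.B x x) (m + 1) y) :
    (lev Z b n).nr x ≤ √C * (lev Z b m).nr y := by
  rw [← lev_nr_sq, ← lev_nr_sq] at h
  refine le_of_sq_le_sq ?_ (mul_nonneg (Real.sqrt_nonneg _) (PD.nr_nonneg _ _))
  rwa [mul_pow, Real.sq_sqrt hC]

lemma lev_nr_mono (Z : ι → X →ₗ[ℝ] X) (b : PD X) {n m : ℕ} (h : n ≤ m) (x : X) :
    (lev Z b n).nr x ≤ (lev Z b m).nr x := by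
  have := lev_nr_le (Z := Z) (b := b) (n := n) (m := m) (x := x) (y := x) zero_le_one
    (by rw [one_mul]; exact sq_mono b.nonneg (Nat.succ_le_succ h) x)
  simpa using this

lemma lev_nr_Z (Z : ι → X →ₗ[ℝ] X) (b : PD X) (n : ℕ) (z : ι) (x : X) :
    (lev Z b n).nr (Z z x) ≤ (lev Z b (n + 1)).nr x := by
  have := lev_nr_le (Z := Z) (b := b) (n := n) (m := n + 1) (x := Z z x) (y := x) zero_le_one
    (by rw [one_mul]; exact sq_Z_le b.nonneg _ z x)
  simpa using this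

theorem exists_proj (b : PD X) (Y : Submodule ℝ X) [FiniteDimensional ℝ Y] :
    ∃ P : X →ₗ[ℝ] X, (∀ x, P x ∈ Y) ∧ ∀ x, ∀ y ∈ Y, b.B (x - P x) y = 0 := by
  let Y' : Submodule ℝ (Lvl b) := Y
  have : FiniteDimensional ℝ Y' := (inferInstance : FiniteDimensional ℝ Y)
  have : CompleteSpace Y' := FiniteDimensional.complete ℝ Y'
  refine ⟨(ofL b).comp ((Y'.starProjection : Lvl b →ₗ[ℝ] Lvl b).comp (toL b)),
    fun x => Y'.starProjection_apply_mem (toL b x), fun x y hy => ?_⟩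
  exact Y'.starProjection_inner_eq_zero (toL b x) (toL b y) hy

lemma symm_of_orth {B : X →ₗ[ℝ] X →ₗ[ℝ] ℝ} (hB : ∀ x y, B x y = B y x) {Y : Submodule ℝ X}
    {P : X →ₗ[ℝ] X} (hP : ∀ x, P x ∈ Y) (h : ∀ x, ∀ y ∈ Y, B (x - P x) y = 0) (x y : X) :
    B (P x) y = B x (P y) := by
  have h1 := h x _ (hP y)
  have h2 := h y _ (hP x)
  rw [map_sub, LinearMap.sub_apply] at h1 h2
  rw [hB (P x) y]
  rw [hB (P y) (P x)] at h2
  linarith

theorem NB_repr {J : Type*} (Z Zs : ι → X →ₗ[ℝ] X) (b : X →ₗ[ℝ] X →ₗ[ℝ] ℝ)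
    (adj : ∀ z x y, b (Z z x) y = b x (Zs z y)) (W : J → Submodule ℝ X) (σ : ι → J → J)
    (hZ : ∀ z j, ∀ y ∈ W j, Z z y ∈ W (σ z j)) (hZs : ∀ z j, ∀ y ∈ W (σ z j), Zs z y ∈ W j)
    (n : ℕ) : ∀ j, ∀ y ∈ W j, ∃ y' ∈ W j, ∀ x, NB Z b n x y = b x y' := by
  induction n with
  | zero => exact fun j y hy => ⟨y, hy, fun x => rfl⟩
  | succ n ih =>
    intro j y hy
    choose y' hy' h using fun z => ih (σ z j) _ (hZ z j y hy)
    refine ⟨∑ z, Zs z (y' z), Submodule.sum_mem _ fun z _ => hZs z j _ (hy' z), fun x => ?_⟩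
    simp only [NB_succ, h, adj, map_sum]

/-- Global existence, in all levels, for `g' + A g = F`. -/
theorem galerkin_Z {J : Type*} (b : PD X) (Z Zs : ι → X →ₗ[ℝ] X)
    (adj : ∀ z x y, b.B (Z z x) y = b.B x (Zs z y)) (W : J → Submodule ℝ X) (σ : ι → J → J)
    (hZ : ∀ z j, ∀ y ∈ W j, Z z y ∈ W (σ z j)) (hZs : ∀ z j, ∀ y ∈ W (σ z j), Zs z y ∈ W j)
    (jN : ℕ → J) (fin : ∀ N, FiniteDimensional ℝ (W (jN N)))
    (hinv : ∀ z N, ∀ y ∈ W (jN N), Zs z y ∈ W (jN N))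
    (hspec : ∀ (N : ℕ) x, (∀ y ∈ W (jN N), b.B x y = 0) →
      ((N : ℝ) + 1) * b.B x x ≤ ∑ z, b.B (Z z x) (Z z x))
    (hcompl : ∀ x : ℕ → X, (∀ n, ∃ η : ℕ → ℝ, Tendsto η atTop (𝓝 0) ∧
      ∀ N M, (lev Z b n).nr (x N - x M) ≤ η N + η M) →
      ∃ y, ∀ n, Tendsto (fun N => (lev Z b n).nr (x N - y)) atTop (𝓝 0))
    (d : X → ℝ) (hd : ∀ x, 0 ≤ d x) (A : ℝ → X →ₗ[ℝ] X) (F : ℝ → X) (a : ℝ) (x0 : X)
    (hA : ∀ x y, Continuous fun s => b.B (A s x) y) (hF : ∀ y, Continuous fun s => b.B (F s) y)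
    (hFb : ∀ a' n, ∃ C, ∀ s ∈ Icc a a', (lev Z b n).nr (F s) ≤ C)
    (𝒞 : (ℝ → X →ₗ[ℝ] X) → Prop) (hA𝒞 : 𝒞 A) (had : ∀ A, 𝒞 A → ∀ z, 𝒞 (ad (Z z) A))
    (ht : ∀ a' A, 𝒞 A → Tame Z b d (Icc a a') A) (hb : ∀ a' A, 𝒞 A → Bdd Z b (Icc a a') A)
    (h0 : ∀ a', ∃ κ0 C0 : ℝ, 0 < κ0 ∧
      ∀ s ∈ Icc a a', ∀ h, κ0 * d h - C0 * b.B h h ≤ b.B (A s h) h) :
    ∃ g g' : ℝ → X, g a = x0 ∧ (∀ s, a ≤ s → g' s = F s - A s (g s)) ∧
      ∀ n, (∀ t, HasDerivAt (fun t => toL (lev Z b n) (g t)) (toL (lev Z b n) (g' t)) t) ∧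
        Continuous fun t => toL (lev Z b n) (g' t) := by
  choose P hPY hPo using fun N => @exists_proj _ X _ _ b (W (jN N)) (fin N)
  have hYP : ∀ N, ∀ y ∈ W (jN N), P N y = y := by
    intro N y hy
    exact (sub_eq_zero.1 (b.defin _ (hPo N y _ (Submodule.sub_mem _ hy (hPY N y))))).symm
  have horth : ∀ n N x, ∀ y ∈ W (jN N), NB Z b.B n (x - P N x) y = 0 := by
    intro n N x y hy
    obtain ⟨y', hy', h⟩ := NB_repr Z Zs b.B adj W σ hZ hZs n _ y hy
    rw [h, hPo N x y' hy']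
  have hsymm : ∀ δ hδ n N x y, (levW Z b δ hδ n).B (P N x) y = (levW Z b δ hδ n).B x (P N y) := by
    intro δ hδ n N x y
    simp only [levW_B, symm_of_orth (NB_symm Z b _) (hPY N) (horth _ N) x y]
  have hspec' : ∀ (N n : ℕ) x, (∀ y ∈ W (jN N), b.B x y = 0) →
      ((N : ℝ) + 1) * lq Z (fun x => b.B x x) n x ≤ lq Z (fun x => b.B x x) (n + 1) x := by
    intro N n
    induction n with
    | zero => exact hspec N
    | succ n ih =>
      intro x hx
      rw [lq_succ _ n, lq_succ _ (n + 1), mul_sum]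
      refine sum_le_sum fun z _ => ih _ fun y hy => ?_
      rw [adj, hx _ (hinv z N y hy)]
  let S : Scale X :=
    { q := lev Z b
      Y := fun N => W (jN N)
      fin := fin
      P := P
      PY := hPY
      YP := hYP
      Psymm := hsymm _ _ 0
      approx := fun n => ⟨fun N => √(1 / ((N : ℝ) + 1)), by
          simpa using (tendsto_one_div_add_atTop_nhds_zero_nat (𝕜 := ℝ)).sqrt, fun N x => by
        have hN : (0 : ℝ) < (N : ℝ) + 1 := by positivity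
        have h1 : (lev Z b n).nr (x - P N x) ≤
            √(1 / ((N : ℝ) + 1)) * (lev Z b (n + 1)).nr (x - P N x) := by
          refine lev_nr_le (by positivity) ?_
          rw [one_div, le_inv_mul_iff₀ hN, ← sum_sq_eq _ (n + 1)]
          have h2 : ((N : ℝ) + 1) * sq Z (fun x => b.B x x) (n + 1) (x - P N x) ≤
              ∑ z, sq Z (fun x => b.B x x) (n + 1) (Z z (x - P N x)) := by
            simp only [sq]
            rw [sum_comm, mul_sum]
            exact sum_le_sum fun j _ => hspec' N j _ (hPo N x)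
          linarith [b.nonneg (x - P N x)]
        refine h1.trans (mul_le_mul_of_nonneg_left ?_ (Real.sqrt_nonneg _))
        refine (lev Z b (n + 1)).nr_proj_le (LinearMap.id - P N) (fun x => ?_) (fun x y => ?_) x
        · simp [hYP N _ (hPY N x)]
        · simp only [LinearMap.sub_apply, LinearMap.id_apply, map_sub]
          rw [show (lev Z b (n + 1)).B (P N x) y = (lev Z b (n + 1)).B x (P N y) from
            hsymm _ _ _ N x y]⟩
      compl := hcompl }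
  refine galerkin_core S A F a x0 (fun x y => by simpa only [S, lev_zero_B] using hA x y)
    (fun y => by simpa only [S, lev_zero_B] using hF y) (fun a' n => ?_) hFb (fun a' n => ?_)
  · choose m C hC h using fun j => bdd_all had (hb a') j A hA𝒞
    have hS : 0 ≤ ∑ j ∈ range (n + 1), C j := sum_nonneg fun j _ => hC j
    refine ⟨∑ j ∈ range (n + 1), m j, √(∑ j ∈ range (n + 1), C j), Real.sqrt_nonneg _,
      fun s hs x => lev_nr_le hS ?_⟩
    rw [sum_mul]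
    refine sum_le_sum fun j hj => (h j s hs x).trans (mul_le_mul_of_nonneg_left ?_ (hC j))
    exact sq_mono b.nonneg ((single_le_sum (f := m) (fun _ _ => Nat.zero_le _) hj).trans
      (Nat.le_succ _)) x
  · obtain ⟨κ0, C0, hκ0, h1⟩ := h0 a'
    obtain ⟨δ, hδ, κ1, C, hκ1, hC, h2⟩ := energy_all hd had (ht a') hA𝒞 hκ0 h1 n
    obtain ⟨j0, -, hj0⟩ := exists_min_image (range (n + 1)) δ ⟨0, by simp⟩
    have hc := (hδ j0).1
    set Q := levW Z b δ (fun j => (hδ j).1) n with hQ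
    have hlow : ∀ x, δ j0 * (lev Z b n).nr x ^ 2 ≤ Q.nr x ^ 2 := by
      intro x
      rw [PD.nr_sq, PD.nr_sq, levW_B, lev_B, mul_sum]
      refine sum_le_sum fun j hj => mul_le_mul_of_nonneg_right (hj0 j hj) ?_
      rw [NB_self]; exact lq_nonneg b.nonneg _ _
    refine ⟨Q, √(δ j0), C / δ j0, n, Real.sqrt_pos.2 hc, by positivity, fun x => ?_, fun x => ?_,
      hsymm _ _ n, fun s hs x => ?_⟩
    · refine le_of_sq_le_sq ?_ (Q.nr_nonneg x)
      rw [mul_pow, Real.sq_sqrt hc.le]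
      exact hlow x
    · refine le_of_sq_le_sq ?_ (PD.nr_nonneg _ x)
      change _ ≤ (lev Z b n).nr x ^ 2
      rw [PD.nr_sq, PD.nr_sq, levW_B, lev_B]
      refine sum_le_sum fun j hj => mul_le_of_le_one_left ?_ (hδ j).2
      rw [NB_self]; exact lq_nonneg b.nonneg _ _
    · have h3 := h2 s hs x
      rw [← lev_nr_sq] at h3
      rw [levW_B]
      have h4 := mul_nonneg hκ1.le (sq_nonneg' (Z := Z) hd (n + 1) x)
      have h5 := mul_le_mul_of_nonneg_left (hlow x) (div_nonneg hC hc.le)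
      rw [← mul_assoc, div_mul_cancel₀ _ hc.ne'] at h5
      linarith

end Pool.Agent.BoltzM.Solver
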