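import Pool.Agent.BoltzM.Solver.Damp
import Pool.Agent.BoltzM.Damp.GD
import Pool.Agent.BoltzM.Spec.Hot

/-!
The solver for the fast part, for the concrete collision operator.
-/

set_option autoImplicit false

open MeasureTheory Finset Pool.Agent.BoltzM.BoltzC

noncomputable section

namespace Pool.Agent.BoltzM.Solver

variable [Dim]

/-- The diagonal bound for the concrete operator. -/
lemma diag_real {Q : CollOp} (hQ : Q.Real) : ∃ e0 C : ℝ, 0 < e0 ∧ 0 < C ∧ ∀ a f : SV,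
    (∀ w, (1 + ‖w‖) ^ (2 * pN) * |sqM w * a w| ≤ e0) → ip (Q.G1 a f) f ≤
      1 / 2 * Q.dq f + C * √(nA (pN + dd + 1) a) * ∫ v, (1 + ‖v‖) ^ 3 * f v ^ 2 := by
  obtain ⟨C0, C1, h0, h1, h⟩ := Damp.gd_real hQ
  refine ⟨1 / (4 * C0), 2 * C1, by positivity, by positivity, fun a f ha => ?_⟩
  have h2 := (le_abs_self _).trans (h a f f _ ha)
  have h3 : ∫ v, (1 + ‖v‖) ^ 2 * f v ^ 2 ≤ ∫ v, (1 + ‖v‖) ^ 3 * f v ^ 2 :=
    integral_mono (integrable_wgt 2 f) (integrable_wgt 3 f) fun v => mul_le_mul_of_nonneg_right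
      (pow_le_pow_right₀ (le_add_of_nonneg_right (norm_nonneg v)) (by norm_num)) (sq_nonneg _)
  have h4 := mul_le_mul_of_nonneg_left h3
    (show 0 ≤ C1 * √(nA (pN + dd + 1) a) by positivity)
  have e3 : C0 * (1 / (4 * C0)) = 1 / 4 := by field_simp
  rw [e3] at h2
  linarith

/-- The solver for the fast part. -/
theorem solve_real {Q : CollOp} (hQ : Q.Real) : ∃ e0 : ℝ, 0 < e0 ∧
    ∀ {F : ℝ → Fld} {k μ ν : ℝ → E3 → ℝ} (s0 : ℝ) {ρ S : ℝ → E3 → SV} {g0 : E3 → SV}, FldC F →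
    SmC k → (∀ s, Per (k s)) → (∀ s, s0 ≤ s → ∀ x, 0 < k s x) →
    SmC μ → (∀ s, Per (μ s)) → (∀ s, s0 ≤ s → ∀ x, 0 < μ s x) → SmC ν → (∀ s, Per (ν s)) →
    SmC ρ → (∀ s, Per (ρ s)) →
    (∀ s, s0 ≤ s → ∀ x w, (1 + ‖w‖) ^ (2 * pN) * |sqM w * ρ s x w| ≤ e0) →
    SmC S → (∀ s, Per (S s)) → Sm g0 → Per g0 →
    ∃ g g' : ℝ → E3 → SV, SmD g g' ∧ (∀ s, Per (g s)) ∧ (∀ s, Per (g' s)) ∧ g s0 = g0 ∧
      ∀ s, s0 ≤ s → ∀ x, g' s x + (F s).tr (g s) x + k s x • Q.L (g s x) + ν s x • Sq (g s x)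
        + μ s x • Jw 4 (g s x) - k s x • Q.G1 (ρ s x) (g s x) = S s x := by
  obtain ⟨e0, C, he, hC, h⟩ := diag_real hQ
  refine ⟨e0, he, fun {F k μ ν} s0 {ρ S g0} hF hk hkp hk0 hμ hμp hμ0 hν hνp hρ hρp hρ0 =>
    solve_hot Q s0 hF hk hkp hk0 hμ hμp hμ0 hν hνp hk hkp hρ hρp fun a => ?_⟩
  obtain ⟨M, hM, hM'⟩ := Cf.bound ⟨k, hk, hkp⟩ s0 a
  obtain ⟨N, hN, hN'⟩ := exists_bound_nA hρ.cont hρp (pN + dd + 1)
    (isCompact_Icc (a := s0) (b := a))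
  refine ⟨M * (C * √N), fun s hs x f => ?_⟩
  have h1 := mul_le_mul_of_nonneg_left (h _ f (hρ0 s hs.1 x)) (hk0 s hs.1 x).le
  have h2 : 0 ≤ ∫ v, (1 + ‖v‖) ^ 3 * f v ^ 2 := integral_nonneg fun v => by positivity
  have h3 : k s x * (C * √(nA (pN + dd + 1) (ρ s x))) ≤ M * (C * √N) :=
    mul_le_mul ((le_abs_self _).trans (hM' s hs x))
      (mul_le_mul_of_nonneg_left (Real.sqrt_le_sqrt (hN' s hs x)) hC.le) (by positivity) hM.le
  have h4 := mul_le_mul_of_nonneg_right h3 h2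
  linarith

theorem m3p : M3pStmt := by
  intro Q hQ
  obtain ⟨e0, he, h⟩ := solve_real hQ
  refine ⟨e0, 2 * pN, he, fun F k N η s0 a S hF hk hkp hk0 hη ha hap hS hSp ha0 => ?_⟩
  obtain ⟨g, g', h1, h2, h3, h4, h5⟩ := h (μ := fun s x => k s x * η) (ν := fun s x => k s x * N)
    (g0 := fun _ => 0) s0 hF hk hkp (fun s _ => hk0 s) (hk.mul (SmC.const _))
    (fun s => (hkp s).map (· * η)) (fun s _ x => mul_pos (hk0 s x) hη) (hk.mul (SmC.const _))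
    (fun s => (hkp s).map (· * N)) ha hap ha0 hS hSp (Sm.const _) (Per.const _)
  refine ⟨g, g', h1, h2, h3, congrFun h4, fun s hs x => ?_⟩
  rw [← h5 s hs x, smul_add, smul_add, mul_smul, mul_smul]
  abel

end Pool.Agent.BoltzM.Solver
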