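import Pool.Agent.BoltzM.Solver.ODE

/-!
Positive definite forms on a real vector space, the normed spaces they define, and the finite
dimensional (Galerkin) approximate solutions.
-/

set_option autoImplicit false

open Set Filter Topology

noncomputable section

namespace Pool.Agent.BoltzM.Solver

variable [Dim]

/-- A symmetric positive definite bilinear form. -/
structure PD (X : Type*) [AddCommGroup X] [Module ℝ X] where
  B : X →ₗ[ℝ] X →ₗ[ℝ] ℝ
  symm : ∀ x y, B x y = B y x
  nonneg : ∀ x, 0 ≤ B x x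
  defin : ∀ x, B x x = 0 → x = 0

variable {X : Type*} [AddCommGroup X] [Module ℝ X]

/-- The space with the inner product given by the form. -/
def Lvl (_q : PD X) : Type _ := X

namespace Lvl

variable (q : PD X)

/-- The inner product core. -/
@[reducible] def core : InnerProductSpace.Core ℝ X where
  inner x y := q.B x y
  conj_inner_symm x y := by simpa using q.symm y x
  re_inner_nonneg x := by simpa using q.nonneg x
  add_left x y z := by simp
  smul_left x y r := by simp
  definite := q.defin

instance : NormedAddCommGroup (Lvl q) :=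
  @InnerProductSpace.Core.toNormedAddCommGroup ℝ X _ _ _ (core q)

instance : InnerProductSpace ℝ (Lvl q) :=
  @InnerProductSpace.ofCore ℝ X _ _ _ (core q).toCore

end Lvl

/-- The identity map into the normed space of a form. -/
def toL (q : PD X) : X →ₗ[ℝ] Lvl q where
  toFun x := x
  map_add' _ _ := rfl
  map_smul' _ _ := rfl

/-- The identity map out of the normed space of a form. -/
def ofL (q : PD X) : Lvl q →ₗ[ℝ] X where
  toFun x := x
  map_add' _ _ := rfl
  map_smul' _ _ := rfl

@[simp] lemma ofL_toL (q : PD X) (x : X) : ofL q (toL q x) = x := rfl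

@[simp] lemma toL_ofL (q : PD X) (x : Lvl q) : toL q (ofL q x) = x := rfl

lemma inner_toL (q : PD X) (x y : X) : inner ℝ (toL q x) (toL q y) = q.B x y := rfl

/-- The norm of a form. -/
def PD.nr (q : PD X) (x : X) : ℝ := ‖toL q x‖

namespace PD

variable (q : PD X)

lemma nr_nonneg (x : X) : 0 ≤ q.nr x := norm_nonneg _

lemma nr_sq (x : X) : q.nr x ^ 2 = q.B x x := by
  rw [nr, ← real_inner_self_eq_norm_sq, inner_toL]

lemma nr_eq_sqrt (x : X) : q.nr x = √(q.B x x) := by
  rw [← nr_sq, Real.sqrt_sq (q.nr_nonneg x)]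

lemma nr_add_le (x y : X) : q.nr (x + y) ≤ q.nr x + q.nr y := by
  simp only [nr, map_add]; exact norm_add_le _ _

lemma nr_sub_le (x y : X) : q.nr (x - y) ≤ q.nr x + q.nr y := by
  simp only [nr, map_sub]; exact norm_sub_le _ _

lemma nr_sub_comm (x y : X) : q.nr (x - y) = q.nr (y - x) := by
  simp only [nr, map_sub]; exact norm_sub_rev _ _

lemma nr_smul (c : ℝ) (x : X) : q.nr (c • x) = |c| * q.nr x := by
  simp only [nr, map_smul, norm_smul, Real.norm_eq_abs]

lemma nr_triangle (x y z : X) : q.nr (x - z) ≤ q.nr (x - y) + q.nr (y - z) := by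
  have := q.nr_add_le (x - y) (y - z)
  rwa [sub_add_sub_cancel] at this

lemma abs_B_le (x y : X) : |q.B x y| ≤ q.nr x * q.nr y := by
  rw [← inner_toL]; exact abs_real_inner_le_norm _ _

lemma B_le (x y : X) : q.B x y ≤ q.nr x * q.nr y := (le_abs_self _).trans (q.abs_B_le x y)

lemma eq_zero_of_nr {x : X} (h : q.nr x = 0) : x = 0 :=
  q.defin x (by rw [← nr_sq, h]; norm_num)

lemma nr_proj_le (P : X →ₗ[ℝ] X) (hP : ∀ x, P (P x) = P x)
    (hs : ∀ x y, q.B (P x) y = q.B x (P y)) (x : X) : q.nr (P x) ≤ q.nr x := by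
  have h1 : q.nr (P x) ^ 2 ≤ q.nr x * q.nr (P x) := by
    rw [nr_sq, hs, hP]; exact q.B_le _ _
  rcases (q.nr_nonneg (P x)).eq_or_lt with h | h
  · rw [← h]; exact q.nr_nonneg x
  · nlinarith

end PD

theorem continuous_of_weak {E : Type*} [NormedAddCommGroup E] [InnerProductSpace ℝ E]
    [FiniteDimensional ℝ E] {f : ℝ → E} (hf : ∀ e, Continuous fun s => inner ℝ e (f s)) :
    Continuous f := by
  have h : f = fun s => ∑ i, inner ℝ (stdOrthonormalBasis ℝ E i) (f s) •
      stdOrthonormalBasis ℝ E i := funext fun s => ((stdOrthonormalBasis ℝ E).sum_repr' _).symm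
  rw [h]
  exact continuous_finsetSum _ fun i _ => (hf _).smul continuous_const

/-- The Galerkin approximation in one finite dimensional subspace. -/
theorem exists_galerkin (q : PD X) (Y : Submodule ℝ X) [FiniteDimensional ℝ Y]
    (P : X →ₗ[ℝ] X) (hPY : ∀ x, P x ∈ Y) (hYP : ∀ y ∈ Y, P y = y)
    (hs : ∀ x y, q.B (P x) y = q.B x (P y))
    (A : ℝ → X →ₗ[ℝ] X) (F : ℝ → X) (hA : ∀ x y, Continuous fun s => q.B (A s x) y)
    (hF : ∀ y, Continuous fun s => q.B (F s) y) (a : ℝ) (x0 : X) :
    ∃ γ : ℝ → X, (∀ t, γ t ∈ Y) ∧ γ a = P x0 ∧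
      (∀ t, t ≤ a → γ t = P x0 + (t - a) • P (F a - A a (P x0))) ∧
      ∀ Q : PD X, (∀ t, HasDerivAt (fun t => toL Q (γ t))
          (toL Q (P (F (max t a) - A (max t a) (γ (max t a))))) t) ∧
        Continuous fun t => toL Q (P (F t - A t (γ t))) := by
  let Y' : Submodule ℝ (Lvl q) := Y
  have : FiniteDimensional ℝ Y' := (inferInstance : FiniteDimensional ℝ Y)
  have : CompleteSpace Y' := FiniteDimensional.complete ℝ Y'
  let pr : X →ₗ[ℝ] Y' := LinearMap.codRestrict Y' ((toL q).comp P) hPY
  let inc : Y' →ₗ[ℝ] X := (ofL q).comp Y'.subtype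
  have hinc : ∀ x, inc (pr x) = P x := fun x => rfl
  have hmem : ∀ e, inc e ∈ Y := fun e => e.2
  have hweak : ∀ f : ℝ → X, (∀ y, Continuous fun s => q.B (f s) y) →
      Continuous fun s => pr (f s) := by
    intro f hf
    refine continuous_of_weak fun e => ?_
    have : ∀ s, inner ℝ e (pr (f s)) = q.B (f s) (inc e) := by
      intro s
      change q.B (inc e) (P (f s)) = _
      rw [← hs, hYP _ (hmem e), q.symm]
    simp only [this]
    exact hf _
  let B : ℝ → Y' →L[ℝ] Y' := fun s => LinearMap.toContinuousLinearMap (pr.comp ((A s).comp inc))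
  have hBa : ∀ s e, B s e = pr (A s (inc e)) := fun s e => rfl
  have hB : Continuous B := continuous_clm_apply.2 fun e => hweak _ (hA (inc e))
  have hF' : Continuous fun s => pr (F s) := hweak _ hF
  obtain ⟨γ, h0, h1, h2⟩ := exists_linear_ode B (fun s => pr (F s)) hB hF' a (pr x0)
  have hγc : Continuous γ := continuous_iff_continuousAt.2 fun t => (h2 t).continuousAt
  refine ⟨fun t => inc (γ t), fun t => hmem _, by simp only [h0, hinc], fun t ht => ?_, fun Q => ?_⟩
  · simp only [h1 t ht, map_add, map_smul, map_sub, hBa, hinc]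
  · let J : Y' →L[ℝ] Lvl Q := LinearMap.toContinuousLinearMap ((toL Q).comp inc)
    have hJ : ∀ e, J e = toL Q (inc e) := fun e => rfl
    constructor
    · intro t
      have h3 := J.hasFDerivAt.comp_hasDerivAt t (h2 t)
      simp only [hJ, map_sub, hBa, hinc] at h3
      simp only [map_sub]
      exact h3
    · have h3 := J.continuous.comp (hF'.sub (hB.clm_apply hγc))
      refine h3.congr fun t => ?_
      simp only [Function.comp, Pi.sub_apply, hJ, map_sub, hBa, hinc]

end Pool.Agent.BoltzM.Solver
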