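import Pool.Agent.BoltzM.Solver.Ops
import Pool.Agent.BoltzM.Solver.Basis

/-!
The general linear solver on the torus.
-/

set_option autoImplicit false

open Set Filter Topology Finset Pool.Agent.BoltzM.BoltzC

noncomputable section

namespace Pool.Agent.BoltzM.Solver

variable [Dim]

variable {P0 P1 : (SV →L[ℝ] SV) → Prop} {d : SV → ℝ}

/-- The quadratic form of `A` is small with respect to the dissipation. -/
def Low (d : SV → ℝ) (A : ℝ → XS →ₗ[ℝ] XS) : Prop :=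
  ∀ a b ε : ℝ, 0 < ε → ∃ C : ℝ, 0 ≤ C ∧ ∀ s ∈ Icc a b, ∀ H,
    |bX.B (A s H) H| ≤ ε * dI d H + C * bX.B H H

/-- Admissible lower order operators. -/
structure Adm (P0 P1 : (SV →L[ℝ] SV) → Prop) (d : SV → ℝ) (A : ℝ → XS →ₗ[ℝ] XS) : Prop where
  gen : Gen P0 P1 A
  low : Low d A

lemma Adm.add {A A' : ℝ → XS →ₗ[ℝ] XS} (h : Adm P0 P1 d A) (h' : Adm P0 P1 d A') :
    Adm P0 P1 d (A + A') := by
  refine ⟨h.gen.add h'.gen, fun a b ε hε => ?_⟩
  obtain ⟨C1, hC1, h2⟩ := h.low a b (ε / 2) (by positivity)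
  obtain ⟨C2, hC2, h3⟩ := h'.low a b (ε / 2) (by positivity)
  refine ⟨C1 + C2, by positivity, fun s hs H => ?_⟩
  simp only [Pi.add_apply, LinearMap.add_apply, map_add]
  refine (abs_add_le _ _).trans ?_
  linarith [h2 s hs H, h3 s hs H]

lemma Adm.neg {A : ℝ → XS →ₗ[ℝ] XS} (h : Adm P0 P1 d A) : Adm P0 P1 d (-A) := by
  refine ⟨h.gen.neg, fun a b ε hε => ?_⟩
  obtain ⟨C1, hC1, h2⟩ := h.low a b ε hε
  refine ⟨C1, hC1, fun s hs H => ?_⟩
  simpa only [Pi.neg_apply, LinearMap.neg_apply, map_neg, abs_neg] using h2 s hs H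

lemma Adm.zero (hd : ∀ f, 0 ≤ d f) : Adm P0 P1 d 0 :=
  ⟨.zero, fun a b ε hε => ⟨0, le_rfl, fun s hs H => by
    simpa using mul_nonneg hε.le (dd_nonneg hd H)⟩⟩

lemma Adm.sum (hd : ∀ f, 0 ≤ d f) {ι : Type*} (S : Finset ι) {A : ι → ℝ → XS →ₗ[ℝ] XS}
    (h : ∀ i, Adm P0 P1 d (A i)) : Adm P0 P1 d (∑ i ∈ S, A i) := by
  classical
  induction S using Finset.induction_on with
  | empty => simpa using Adm.zero hd
  | insert i S hi ih => rw [sum_insert hi]; exact (h i).add ih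

lemma Adm.rk (hd : ∀ f, 0 ≤ d f) (φ ψ : Vf) : Adm P0 P1 d (rk φ ψ) := by
  refine ⟨.rk φ ψ, fun a b ε hε => ?_⟩
  obtain ⟨C, hC, h⟩ := abs_bX_rk_le φ ψ a b
  refine ⟨2 * C, by positivity, fun s hs H => ?_⟩
  linarith [h s hs H H, mul_nonneg hε.le (dd_nonneg hd H)]

lemma low_of_vd (hdc : Continuous d) (c : Cf) {B : SV →L[ℝ] SV} (hB : VD d B) (a b ε : ℝ)
    (hε : 0 < ε) : ∃ C : ℝ, 0 ≤ C ∧ ∀ s ∈ Icc a b, ∀ H : XS,
      |tint fun x => c.c s x * ip (B (H.1 x)) (H.1 x)| ≤ ε * dI d H + C * bX.B H H := by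
  obtain ⟨M, hM, hM'⟩ := c.bound a b
  obtain ⟨C, hC, h⟩ := hB (ε / M) (by positivity)
  refine ⟨M * C, by positivity, fun s hs H => ?_⟩
  refine (abs_tint_mul_le hdc (α := ε / M) (β := 0) (γ := C) (δ := 0) H H (hM' s hs)
    fun x => by linarith [h (H.1 x)]).trans (le_of_eq ?_)
  field_simp
  ring

lemma Adm.tm_none (hdc : Continuous d) (c : Cf) {B : SV →L[ℝ] SV} (hB : P0 B) (hV : VD d B) :
    Adm P0 P1 d (tm c B none) :=
  ⟨.t0 c B none hB, fun a b ε hε => by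
    simp only [bX_tm]; exact low_of_vd hdc c hV a b ε hε⟩

lemma Adm.tm_inr (hdc : Continuous d) (c : Cf) {B : SV →L[ℝ] SV} (hB : P0 B) (j : Ix)
    (hV : VD d (B.comp (ap j))) : Adm P0 P1 d (tm c B (some (Sum.inr j))) :=
  ⟨.t0 c B _ hB, fun a b ε hε => by
    simp only [bX_tm]; exact low_of_vd hdc c hV a b ε hε⟩

lemma Adm.tm_inl (hdc : Continuous d) (c : Cf) {B : SV →L[ℝ] SV} (hB : P0 B)
    (i : Ix) (hV : VD d B) (hs : ∀ f h, ip (B f) h = ip f (B h)) :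
    Adm P0 P1 d (tm c B (some (Sum.inl i))) := by
  refine ⟨.t0 c B _ hB, fun a b ε hε => ?_⟩
  obtain ⟨C, hC, h⟩ := low_of_vd hdc (c.d i) hV a b ε hε
  refine ⟨C, hC, fun s hs' H => ?_⟩
  have h1 := tint_mul_bilin_dX_self (ip.comp B.toLinearMap)
    (continuous_ip.comp ((B.continuous.comp continuous_fst).prodMk continuous_snd))
    (fun f g => (hs f g).trans (ip_comm _ _)) (c.sm.slice s) (XS.sm H) (c.per s) (XS.per H) i
  have h2 := h s hs' H
  rw [bX_tm]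
  change |tint fun x => c.c s x * ip.comp B.toLinearMap (dX i H.1 x) (H.1 x)| ≤ _
  rw [h1, abs_mul]
  change _ * |tint fun x => (c.d i).c s x * ip (B (H.1 x)) (H.1 x)| ≤ _
  have h3 := abs_nonneg (tint fun x => (c.d i).c s x * ip (B (H.1 x)) (H.1 x))
  rw [abs_neg, abs_of_pos (by norm_num : (0 : ℝ) < 1 / 2)]
  linarith

/-- The general solver. -/
theorem solver_gen (hdc : Continuous d) (hd : ∀ f, 0 ≤ d f)
    (h0 : ∀ B, P0 B → V0 d B ∧ ∀ j, P0 (adV j B)) (h1 : ∀ B, P1 B → V1 d B ∧ ∀ j, P1 (adV j B))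
    {L : SV →L[ℝ] SV} (hL1 : P1 L) (hL : ∀ h, d h - ip h h ≤ ip (L h) h)
    {A : ℝ → XS →ₗ[ℝ] XS} (hA : Adm P0 P1 d A) (k : Cf) (s0 : ℝ)
    (hk : ∀ s, s0 ≤ s → ∀ x, 0 < k.c s x) (F : Vf) (g0 : XS) :
    ∃ g g' : ℝ → XS, SmD (fun s => (g s).1) (fun s => (g' s).1) ∧ g s0 = g0 ∧
      ∀ s, s0 ≤ s → ∀ x, (g' s).1 x + (A s (g s)).1 x + k.c s x • L ((g s).1 x) = F.f s x := by
  have hG : Gen P0 P1 (A + tm k L none) := hA.gen.add (.t1 k L hL1)
  obtain ⟨g, g', h2, h3, h4⟩ := galerkin_Z bX ZX ZsX adjX WX shiftX ZX_mem ZsX_mem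
    (fun N => (N, N)) (fun N => inferInstance) (fun z N => ZsX_mem_self z _) specX XS_complete
    (dI d) (dd_nonneg hd) (A + tm k L none) F.at s0 g0 hG.weak F.continuous_B'
    (F.bdd_lev s0) (Gen P0 P1) hG
    (fun A hA => hA.ad (fun B hB => (h0 B hB).2) fun B hB => (h1 B hB).2)
    (fun a' A hA => hA.tame hdc hd (fun B hB => (h0 B hB).1) (fun B hB => (h1 B hB).1) s0 a')
    (fun a' A hA => hA.bdd s0 a')
    (fun a' => by
      obtain ⟨κ, hκ, hκ'⟩ := exists_lower_bound_of_per k.sm.cont k.per (isCompact_Icc (a := s0)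
        (b := a')) fun s hs => hk s hs.1
      obtain ⟨M, hM, hM'⟩ := k.bound s0 a'
      obtain ⟨C, hC, h⟩ := hA.low s0 a' (κ / 2) (by positivity)
      refine ⟨κ / 2, C + M, by positivity, fun s hs H => ?_⟩
      have c1 : Continuous fun x => κ * d (H.1 x) :=
        continuous_const.mul (hdc.comp (XS.sm H).cont)
      have c2 : Continuous fun x => M * ip (H.1 x) (H.1 x) :=
        continuous_const.mul (XS.cont_ip _ _)
      have h5 : κ * dI d H - M * bX.B H H ≤ bX.B (tm k L none s H) H := by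
        rw [dI, bX_B, bX_B, ← tint_const_mul, ← tint_const_mul, ← tint_sub c1 c2]
        refine tint_mono (c1.sub c2) (XS.cont_ip _ _) fun x => ?_
        rw [tm_apply, map_smul, LinearMap.smul_apply, smul_eq_mul]
        have e1 := mul_le_mul_of_nonneg_left (hL (H.1 x)) (hk s hs.1 x).le
        have e2 := mul_le_mul_of_nonneg_right (hκ' s hs x) (hd (H.1 x))
        have e3 := mul_le_mul_of_nonneg_right ((le_abs_self _).trans (hM' s hs x))
          (ip_self_nonneg (H.1 x))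
        change _ ≤ k.c s x * ip (L (H.1 x)) (H.1 x)
        linarith
      simp only [Pi.add_apply, LinearMap.add_apply, map_add]
      linarith [(abs_le.1 (h s hs H)).1])
  refine ⟨g, g', smD_of_lev h4, h2, fun s hs x => ?_⟩
  rw [h3 s hs]
  change F.f s x - ((A s (g s)).1 x + k.c s x • L ((g s).1 x)) + _ + _ = _
  abel

end Pool.Agent.BoltzM.Solver
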