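import Pool.Agent.BoltzM.Solver.VOps
import Pool.Agent.BoltzM.Herm.Macro

/-!
Velocity operators for the damped equations: polynomial weights of degree eight, Schwartz
multipliers, the damping operator.
-/

set_option autoImplicit false

open MeasureTheory Finset Pool.Agent.BoltzM.BoltzC SchwartzMap

noncomputable section

namespace Pool.Agent.BoltzM.Solver

variable [Dim]

variable {d : SV → ℝ}

lemma mulW_append (α β : List Ix) : mulW (α ++ β) = (mulW α).comp (mulW β) := by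
  induction α with
  | nil => rfl
  | cons i α ih => ext1 f; simp [ih]

lemma MulC.mul {n m : ℕ} {A B : SV →L[ℝ] SV} (hA : MulC n A) (hB : MulC m B) :
    MulC (n + m) (A.comp B) := by
  induction hA with
  | base α hα =>
    induction hB with
    | base β hβ =>
      rw [← mulW_append]
      exact .base _ (by rw [List.length_append]; omega)
    | add _ _ h1 h2 => rw [ContinuousLinearMap.comp_add]; exact h1.add h2
    | smul c _ h1 => rw [ContinuousLinearMap.comp_smul]; exact h1.smul c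
  | add _ _ h1 h2 => rw [ContinuousLinearMap.add_comp]; exact h1.add h2
  | smul c _ h1 => rw [ContinuousLinearMap.smul_comp]; exact h1.smul c

lemma MulC.sum {n : ℕ} {ι : Type*} (S : Finset ι) {A : ι → SV →L[ℝ] SV} (h : ∀ i, MulC n (A i)) :
    MulC n (∑ i ∈ S, A i) := by
  classical
  induction S using Finset.induction_on with
  | empty => simpa using (MulC.base (n := n) [] (Nat.zero_le _)).smul 0
  | insert i S hi ih => rw [sum_insert hi]; exact (h i).add ih

lemma MulC.symm {n : ℕ} {A : SV →L[ℝ] SV} (h : MulC n A) (f g : SV) :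
    ip (A f) g = ip f (A g) := by
  induction h with
  | base α _ => exact ip_mulW α f g
  | add _ _ h1 h2 => simp only [_root_.add_apply, map_add, LinearMap.add_apply, h1, h2]
  | smul c _ h1 =>
    simp only [_root_.smul_apply, map_smul, LinearMap.smul_apply, h1]

lemma V1.add {A B : SV →L[ℝ] SV} (hA : V1 d A) (hB : V1 d B) : V1 d (A + B) := by
  intro ε hε
  obtain ⟨C1, h1, h1'⟩ := hA (ε / 2) (by positivity)
  obtain ⟨C2, h2, h2'⟩ := hB (ε / 2) (by positivity)
  refine ⟨C1 + C2, by positivity, fun f h => ?_⟩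
  rw [_root_.add_apply, map_add, LinearMap.add_apply]
  refine (abs_add_le _ _).trans ?_
  linarith [h1' f h, h2' f h]

lemma V1.smul {A : SV →L[ℝ] SV} (hA : V1 d A) (hd : ∀ f, 0 ≤ d f) (c : ℝ) : V1 d (c • A) := by
  intro ε hε
  obtain ⟨C1, h1, h1'⟩ := hA (ε / (|c| + 1)) (by positivity)
  refine ⟨|c| * C1, by positivity, fun f h => ?_⟩
  rw [_root_.smul_apply, map_smul, LinearMap.smul_apply, smul_eq_mul, abs_mul]
  have h2 := mul_le_mul_of_nonneg_left (h1' f h) (abs_nonneg c)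
  have h3 : |c| * (ε / (|c| + 1)) ≤ ε := by
    rw [mul_div_assoc', div_le_iff₀ (by positivity)]; nlinarith
  have h4 := mul_le_mul_of_nonneg_right h3 (hd h)
  nlinarith

lemma V0.v1 {A : SV →L[ℝ] SV} (hA : V0 d A) (hd : ∀ f, ip f f ≤ d f) : V1 d A := by
  intro ε hε
  obtain ⟨C, hC, h⟩ := hA ε hε
  refine ⟨ε + C, by positivity, fun f g => ?_⟩
  have h1 := mul_le_mul_of_nonneg_left (hd f) hC
  have h2 := mul_nonneg hε.le (ip_self_nonneg g)
  linarith [h f g]

lemma v1_mulW (hd : ∀ f, 0 ≤ d f) {n : ℕ}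
    (hw : ∃ C : ℝ, ∀ f : SV, ∫ v, (1 + ‖v‖) ^ n * f v ^ 2 ≤ C * d f)
    (α : List Ix) (hα : α.length ≤ n) : V1 d (mulW α) := by
  intro ε hε
  obtain ⟨C, hC⟩ := hw
  set e := ε / (|C| + 1) with he
  have he0 : 0 < e := by positivity
  refine ⟨e⁻¹ * |C|, by positivity, fun f h => ?_⟩
  have i1 := integrable_wgt n f
  have i2 := integrable_wgt n h
  have h1 : |ip (mulW α f) h| ≤ ∫ v, (e⁻¹ * ((1 + ‖v‖) ^ n * f v ^ 2) +
      e * ((1 + ‖v‖) ^ n * h v ^ 2)) := by
    rw [ip_def, ← Real.norm_eq_abs]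
    refine norm_integral_le_of_norm_le ((i1.const_mul _).add (i2.const_mul _))
      (Filter.Eventually.of_forall fun v => ?_)
    have ht : 1 ≤ 1 + ‖v‖ := le_add_of_nonneg_right (norm_nonneg v)
    have h2 : |mulW α f v| ≤ (1 + ‖v‖) ^ n * |f v| :=
      (abs_mulW_le α f v).trans (mul_le_mul_of_nonneg_right (pow_le_pow_right₀ ht hα)
        (abs_nonneg _))
    have h3 : |f v| * |h v| ≤ e⁻¹ * f v ^ 2 + e * h v ^ 2 := by
      have h4 : e⁻¹ * |f v| ^ 2 + e * |h v| ^ 2 - 2 * (|f v| * |h v|) =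
          e⁻¹ * (|f v| - e * |h v|) ^ 2 := by field_simp; ring
      have h5 : 0 ≤ e⁻¹ * (|f v| - e * |h v|) ^ 2 := by positivity
      have h6 := mul_nonneg (abs_nonneg (f v)) (abs_nonneg (h v))
      rw [sq_abs, sq_abs] at h4
      linarith
    rw [Real.norm_eq_abs, abs_mul]
    calc |mulW α f v| * |h v| ≤ (1 + ‖v‖) ^ n * |f v| * |h v| := by gcongr
      _ = (1 + ‖v‖) ^ n * (|f v| * |h v|) := by ring
      _ ≤ (1 + ‖v‖) ^ n * (e⁻¹ * f v ^ 2 + e * h v ^ 2) := by gcongr
      _ = _ := by ring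
  rw [integral_add (i1.const_mul _) (i2.const_mul _), integral_const_mul,
    integral_const_mul] at h1
  have h2 : e * |C| ≤ ε := by
    rw [he, div_mul_eq_mul_div, div_le_iff₀ (by positivity)]; nlinarith
  have h3 := mul_le_mul_of_nonneg_left ((hC f).trans
    (mul_le_mul_of_nonneg_right (le_abs_self C) (hd f))) (inv_pos.2 he0).le
  have h4 := mul_le_mul_of_nonneg_left ((hC h).trans
    (mul_le_mul_of_nonneg_right (le_abs_self C) (hd h))) he0.le
  have h5 := mul_le_mul_of_nonneg_right h2 (hd h)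
  have h6 : 0 ≤ e⁻¹ * |C| * ip h h := mul_nonneg (by positivity) (ip_self_nonneg h)
  nlinarith

lemma MulC.v1 (hd : ∀ f, 0 ≤ d f) {n : ℕ}
    (hw : ∃ C : ℝ, ∀ f : SV, ∫ v, (1 + ‖v‖) ^ n * f v ^ 2 ≤ C * d f)
    {A : SV →L[ℝ] SV} (h : MulC n A) : V1 d A := by
  induction h with
  | base α hα => exact v1_mulW hd hw α hα
  | add _ _ h1 h2 => exact h1.add h2
  | smul c _ h1 => exact h1.smul hd c

/-! ### Schwartz multipliers -/

/-- Multiplication by a Schwartz function. -/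
def mulS (χ : SV) : SV →L[ℝ] SV := smulLeftCLM ℝ (χ : E → ℝ)

@[simp] lemma mulS_apply (χ f : SV) (v : E) : mulS χ f v = χ v * f v := by
  simp [mulS, smulLeftCLM_apply_apply χ.hasTemperateGrowth]

lemma adV_mulS (j : Ix) (χ : SV) : adV j (mulS χ) = mulS (-dV j χ) := by
  ext f v
  have h0 : (mulS χ f : E → ℝ) = fun v => χ v * f v := funext (mulS_apply χ f)
  have h1 := (χ.hasFDerivAt v).mul (f.hasFDerivAt v)
  rw [adV_apply]
  simp only [SchwartzMap.sub_apply, ap_apply, mulS_apply, SchwartzMap.neg_apply, dV_apply]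
  rw [h0]
  erw [h1.fderiv]
  simp
  ring

lemma v0_mulS (hd : ∀ f, 0 ≤ d f) (χ : SV) : V0 d (mulS χ) := by
  intro ε hε
  set S := SchwartzMap.seminorm ℝ 0 0 χ with hS
  have hS0 : 0 ≤ S := apply_nonneg _ _
  refine ⟨S, hS0, fun f h => ?_⟩
  have i3 : Integrable fun v => f v ^ 2 := by simpa using integrable_wgt 0 f
  have i4 : Integrable fun v => h v ^ 2 := by simpa using integrable_wgt 0 h
  have h1 : |ip (mulS χ f) h| ≤ ∫ v, S * (f v ^ 2 + h v ^ 2) := by
    rw [ip_def, ← Real.norm_eq_abs]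
    refine norm_integral_le_of_norm_le ((i3.add i4).const_mul _)
      (Filter.Eventually.of_forall fun v => ?_)
    have h2 : |χ v| ≤ S := by
      simpa only [Real.norm_eq_abs] using SchwartzMap.norm_le_seminorm ℝ χ v
    have h3 : |f v| * |h v| ≤ f v ^ 2 + h v ^ 2 := by
      nlinarith [sq_nonneg (|f v| - |h v|), sq_abs (f v), sq_abs (h v),
        mul_nonneg (abs_nonneg (f v)) (abs_nonneg (h v))]
    rw [Real.norm_eq_abs, mulS_apply, abs_mul, abs_mul, mul_assoc]
    exact mul_le_mul h2 h3 (by positivity) hS0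
  rw [integral_const_mul, integral_add i3 i4, ← ip_self_eq, ← ip_self_eq] at h1
  linarith [mul_nonneg hε.le (add_nonneg (hd f) (hd h))]

/-! ### The weight -/

/-- Multiplication by `1 + |V|^2`. -/
def w2 : SV →L[ℝ] SV := mulW [] + ∑ i, mulW [i, i]

lemma w2_apply (f : SV) (v : E) : w2 f v = (1 + ‖v‖ ^ 2) * f v := by
  have h : (∑ i, mulW [i, i] f) v = ∑ i, v i * (v i * f v) := by
    rw [SchwartzMap.sum_apply]; simp
  rw [w2, _root_.add_apply, ContinuousLinearMap.sum_apply, SchwartzMap.add_apply, h,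
    EuclideanSpace.real_norm_sq_eq, add_mul, one_mul, sum_mul, mulW_nil]
  congr 1
  exact sum_congr rfl fun i _ => by ring

lemma mulC_w2 : MulC 2 w2 :=
  (MulC.base [] (by simp)).add (MulC.sum _ fun i => .base [i, i] (by simp))

/-- Multiplication by `(1 + |V|^2)^4`. -/
def w8 : SV →L[ℝ] SV := (w2.comp w2).comp (w2.comp w2)

lemma w8_apply (f : SV) (v : E) : w8 f v = (1 + ‖v‖ ^ 2) ^ 4 * f v := by
  simp only [w8, ContinuousLinearMap.comp_apply, w2_apply]; ring

lemma mulC_w8 : MulC 8 w8 := (mulC_w2.mul mulC_w2).mul (mulC_w2.mul mulC_w2)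

lemma ip_w8 (f : SV) : ip (w8 f) f = ∫ v, (1 + ‖v‖ ^ 2) ^ 4 * f v ^ 2 := by
  rw [ip_def]
  exact integral_congr_ae (Filter.Eventually.of_forall fun v => by simp only [w8_apply]; ring)

lemma ip_w8_nonneg (f : SV) : 0 ≤ ip (w8 f) f := by
  rw [ip_w8]; exact integral_nonneg fun v => by positivity

lemma wgt_le_w8 (f : SV) : ∫ v, (1 + ‖v‖) ^ 8 * f v ^ 2 ≤ 16 * ip (w8 f) f := by
  rw [ip_def, ← integral_const_mul]
  refine integral_mono (integrable_wgt 8 f) ((integrable_mul _ _).const_mul _) fun v => ?_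
  have h1 : (1 + ‖v‖) ^ 2 ≤ 2 * (1 + ‖v‖ ^ 2) := by nlinarith [sq_nonneg (1 - ‖v‖)]
  have h2 : ((1 + ‖v‖) ^ 2) ^ 4 ≤ (2 * (1 + ‖v‖ ^ 2)) ^ 4 := by gcongr
  have h3 := mul_le_mul_of_nonneg_right h2 (sq_nonneg (f v))
  simp only [w8_apply]
  calc _ = ((1 + ‖v‖) ^ 2) ^ 4 * f v ^ 2 := by ring
    _ ≤ _ := h3
    _ = _ := by ring

lemma fr_PP_comp {A : SV →L[ℝ] SV} (hs : ∀ f g, ip (A f) g = ip f (A g)) : FR (PP.comp A) := by
  have e : PP.comp A = ∑ a, (ipL (A (eH a))).smulRight (eH a) := by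
    ext1 f
    simp [PP_apply, hs]
  rw [e]; exact FR.sum _ fun a => FR.base _ _

end Pool.Agent.BoltzM.Solver
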