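import Pool.Agent.BoltzM.Solver.Space
import Pool.Agent.BoltzM.Solver.VOps

/-!
The class of operators on smooth periodic functions generated by coefficient times velocity
operator times letter, and by rank one operators.
-/

set_option autoImplicit false

open Set Filter Topology Finset Pool.Agent.BoltzM.BoltzC

noncomputable section

namespace Pool.Agent.BoltzM.Solver

variable [Dim]

/-- A smooth periodic scalar coefficient depending on time. -/
structure Cf where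
  c : ℝ → E3 → ℝ
  sm : SmC c
  per : ∀ s, Per (c s)

/-- A smooth periodic Schwartz valued function depending on time. -/
structure Vf where
  f : ℝ → E3 → SV
  sm : SmC f
  per : ∀ s, Per (f s)

/-- Derivative of a coefficient. -/
def Cf.d (c : Cf) (i : Ix) : Cf := ⟨fun s => dX i (c.c s), c.sm.dX i, fun s => (c.per s).dX i⟩

/-- Value at a time. -/
def Vf.at (φ : Vf) (s : ℝ) : XS := ⟨φ.f s, φ.sm.slice s, φ.per s⟩

/-- Action of a letter. -/
def Vf.Z (φ : Vf) : Ix ⊕ Ix → Vf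
  | Sum.inl i => ⟨fun s => dX i (φ.f s), φ.sm.dX i, fun s => (φ.per s).dX i⟩
  | Sum.inr j => ⟨fun s x => ap j (φ.f s x), φ.sm.clm _, fun s => (φ.per s).map _⟩

/-- Action of the adjoint of a letter. -/
def Vf.Zs (φ : Vf) : Ix ⊕ Ix → Vf
  | Sum.inl i => ⟨fun s x => -dX i (φ.f s) x, (φ.sm.dX i).neg, fun s => ((φ.per s).dX i).map _⟩
  | Sum.inr j => ⟨fun s x => am j (φ.f s x), φ.sm.clm _, fun s => (φ.per s).map _⟩

lemma Vf.Z_at (φ : Vf) (z : Ix ⊕ Ix) (s : ℝ) : (φ.Z z).at s = ZX z (φ.at s) := by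
  rcases z with i | j <;> rfl

lemma Vf.Zs_at (φ : Vf) (z : Ix ⊕ Ix) (s : ℝ) : (φ.Zs z).at s = ZsX z (φ.at s) := by
  rcases z with i | j <;> rfl

lemma Vf.continuous_B (φ ψ : Vf) : Continuous fun s => bX.B (φ.at s) (ψ.at s) :=
  (φ.sm.ip ψ.sm).continuous_tint

lemma Vf.continuous_B' (φ : Vf) (H : XS) : Continuous fun s => bX.B (φ.at s) H :=
  φ.continuous_B ⟨fun _ => H.1, (XS.sm H).smC, fun _ => XS.per H⟩

lemma Vf.continuous_lq (j : ℕ) : ∀ φ : Vf, Continuous fun s => lq ZX nX j (φ.at s) := by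
  induction j with
  | zero => exact fun φ => φ.continuous_B φ
  | succ j ih =>
    intro φ
    simp only [lq_succ, ← Vf.Z_at]
    exact continuous_finsetSum _ fun z _ => ih _

lemma Vf.bdd_lev (φ : Vf) (a b : ℝ) (n : ℕ) :
    ∃ C, ∀ s ∈ Icc a b, (lev ZX bX n).nr (φ.at s) ≤ C := by
  have h : Continuous fun s => √(sq ZX nX (n + 1) (φ.at s)) :=
    (continuous_finsetSum _ fun j _ => Vf.continuous_lq j φ).sqrt
  obtain ⟨C, hC⟩ := isCompact_Icc.exists_bound_of_continuousOn (h.continuousOn (s := Icc a b))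
  refine ⟨C, fun s hs => le_trans ?_ ((le_abs_self _).trans (hC s hs))⟩
  rw [← lev_nr_sq, Real.sqrt_sq (PD.nr_nonneg _ _)]

lemma Vf.bdd_nX (φ : Vf) (a b : ℝ) : ∃ C, 0 ≤ C ∧ ∀ s ∈ Icc a b, bX.nr (φ.at s) ≤ C := by
  have h : Continuous fun s => √(bX.B (φ.at s) (φ.at s)) := (φ.continuous_B φ).sqrt
  obtain ⟨C, hC⟩ := isCompact_Icc.exists_bound_of_continuousOn (h.continuousOn (s := Icc a b))
  refine ⟨|C|, abs_nonneg _, fun s hs => ?_⟩
  rw [PD.nr_eq_sqrt]
  exact (le_abs_self _).trans ((hC s hs).trans (le_abs_self _))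

/-- Multiplication by a coefficient. -/
def opC (c : Cf) (s : ℝ) : XS →ₗ[ℝ] XS where
  toFun G := ⟨fun x => c.c s x • G.1 x, (c.sm.slice s).smul (XS.sm G),
    (c.per s).map₂ (XS.per G) (· • ·)⟩
  map_add' _ _ := Subtype.ext (funext fun _ => smul_add _ _ _)
  map_smul' a G := Subtype.ext (funext fun x => smul_comm (c.c s x) a (G.1 x))

/-- Coefficient times velocity operator times letter. -/
def tm (c : Cf) (B : SV →L[ℝ] SV) (z : Option (Ix ⊕ Ix)) : ℝ → XS →ₗ[ℝ] XS :=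
  fun s => (opC c s).comp ((opV B).comp (ZoX z))

lemma tm_apply (c : Cf) (B : SV →L[ℝ] SV) (z : Option (Ix ⊕ Ix)) (s : ℝ) (G : XS) (x : E3) :
    (tm c B z s G).1 x = c.c s x • B ((ZoX z G).1 x) := rfl

/-- Rank one operator. -/
def rk (φ ψ : Vf) : ℝ → XS →ₗ[ℝ] XS := fun s => (bX.B (ψ.at s)).smulRight (φ.at s)

lemma rk_apply (φ ψ : Vf) (s : ℝ) (G : XS) : rk φ ψ s G = bX.B (ψ.at s) G • φ.at s := rfl

lemma ad_tm_inl (c : Cf) (B : SV →L[ℝ] SV) (z : Option (Ix ⊕ Ix)) (i : Ix) :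
    ad (ZX (Sum.inl i)) (tm c B z) = tm (c.d i) B z := by
  funext s
  ext G x : 3
  have h1 := congrFun (dX_smul (c.sm.slice s).dif (XS.sm (opV B (ZoX z G))).dif i) x
  have h2 := congrFun (congrArg Subtype.val (opD_opV i B (ZoX z G))) x
  have h3 := congrFun (congrArg Subtype.val (ZoX_comm z (Sum.inl i) G)) x
  change dX i (fun x => c.c s x • (opV B (ZoX z G)).1 x) x -
    c.c s x • B ((ZoX z (ZX (Sum.inl i) G)).1 x) = dX i (c.c s) x • (opV B (ZoX z G)).1 x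
  rw [h1, h3]
  change _ + c.c s x • (opD i (opV B (ZoX z G))).1 x - _ = _
  rw [h2]
  exact add_sub_cancel_right _ _

lemma ad_tm_inr (c : Cf) (B : SV →L[ℝ] SV) (z : Option (Ix ⊕ Ix)) (j : Ix) :
    ad (ZX (Sum.inr j)) (tm c B z) = tm c (adV j B) z := by
  funext s
  ext G x : 3
  have h3 := congrFun (congrArg Subtype.val (ZoX_comm z (Sum.inr j) G)) x
  change ap j (c.c s x • B ((ZoX z G).1 x)) -
    c.c s x • B ((ZoX z (ZX (Sum.inr j) G)).1 x) = c.c s x • adV j B ((ZoX z G).1 x)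
  rw [h3, adV_apply, map_smul, smul_sub]
  rfl

lemma ad_rk (φ ψ : Vf) (z : Ix ⊕ Ix) :
    ad (ZX z) (rk φ ψ) = rk (φ.Z z) ψ + -rk φ (ψ.Zs z) := by
  funext s
  ext1 G
  simp only [ad_apply, rk_apply, Pi.add_apply, Pi.neg_apply, LinearMap.add_apply,
    LinearMap.neg_apply, map_smul, Vf.Z_at, Vf.Zs_at]
  rw [bX.symm _ (ZX z G), adjX, bX.symm G, sub_eq_add_neg]

/-- The dissipation integrated over the torus. -/
def dI (d : SV → ℝ) (G : XS) : ℝ := tint fun x => d (G.1 x)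

/-- The class of operators. -/
inductive Gen (P0 P1 : (SV →L[ℝ] SV) → Prop) : (ℝ → XS →ₗ[ℝ] XS) → Prop
  | t0 (c : Cf) (B : SV →L[ℝ] SV) (z : Option (Ix ⊕ Ix)) : P0 B → Gen P0 P1 (tm c B z)
  | t1 (c : Cf) (B : SV →L[ℝ] SV) : P1 B → Gen P0 P1 (tm c B none)
  | rk (φ ψ : Vf) : Gen P0 P1 (rk φ ψ)
  | add {A A' : ℝ → XS →ₗ[ℝ] XS} : Gen P0 P1 A → Gen P0 P1 A' → Gen P0 P1 (A + A')
  | neg {A : ℝ → XS →ₗ[ℝ] XS} : Gen P0 P1 A → Gen P0 P1 (-A)
  | zero : Gen P0 P1 0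

variable {P0 P1 : (SV →L[ℝ] SV) → Prop} {d : SV → ℝ}

lemma Gen.sum {ι : Type*} (S : Finset ι) {A : ι → ℝ → XS →ₗ[ℝ] XS} (h : ∀ i, Gen P0 P1 (A i)) :
    Gen P0 P1 (∑ i ∈ S, A i) := by
  classical
  induction S using Finset.induction_on with
  | empty => simpa using Gen.zero
  | insert i S hi ih => rw [sum_insert hi]; exact (h i).add ih

lemma Gen.ad (h0 : ∀ B, P0 B → ∀ j, P0 (adV j B)) (h1 : ∀ B, P1 B → ∀ j, P1 (adV j B))
    {A : ℝ → XS →ₗ[ℝ] XS} (hA : Gen P0 P1 A) (z : Ix ⊕ Ix) : Gen P0 P1 (ad (ZX z) A) := by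
  induction hA with
  | t0 c B z' hB =>
    rcases z with i | j
    · rw [ad_tm_inl]; exact .t0 _ _ _ hB
    · rw [ad_tm_inr]; exact .t0 _ _ _ (h0 B hB j)
  | t1 c B hB =>
    rcases z with i | j
    · rw [ad_tm_inl]; exact .t1 _ _ hB
    · rw [ad_tm_inr]; exact .t1 _ _ (h1 B hB j)
  | rk φ ψ => rw [ad_rk]; exact (Gen.rk _ _).add (Gen.rk _ _).neg
  | @add A A' _ _ ih ih' =>
    have e : Solver.ad (ZX z) (A + A') = Solver.ad (ZX z) A + Solver.ad (ZX z) A' := by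
      funext s; ext1 G
      simp only [ad_apply, Pi.add_apply, LinearMap.add_apply, map_add]; abel
    rw [e]; exact ih.add ih'
  | @neg A _ ih =>
    have e : Solver.ad (ZX z) (-A) = -Solver.ad (ZX z) A := by
      funext s; ext1 G
      simp only [ad_apply, Pi.neg_apply, LinearMap.neg_apply, map_neg]; abel
    rw [e]; exact ih.neg
  | zero =>
    have e : Solver.ad (ZX z) (0 : ℝ → XS →ₗ[ℝ] XS) = 0 := by
      funext s; ext1 G; simp [ad_apply]
    rw [e]; exact .zero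

lemma Gen.weak {A : ℝ → XS →ₗ[ℝ] XS} (hA : Gen P0 P1 A) (G H : XS) :
    Continuous fun s => bX.B (A s G) H := by
  have key : ∀ c B z, Continuous fun s => bX.B (tm c B z s G) H := fun c B z =>
    ((c.sm.smul (XS.sm (opV B (ZoX z G))).smC).ip (XS.sm H).smC).continuous_tint
  induction hA with
  | t0 c B z _ => exact key c B z
  | t1 c B _ => exact key c B none
  | rk φ ψ =>
    simp only [rk_apply, map_smul, LinearMap.smul_apply, smul_eq_mul]
    exact (ψ.continuous_B' G).mul (φ.continuous_B' H)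
  | add _ _ ih ih' =>
    simp only [Pi.add_apply, LinearMap.add_apply, map_add]
    exact ih.add ih'
  | neg _ ih =>
    simp only [Pi.neg_apply, LinearMap.neg_apply, map_neg]
    exact ih.neg
  | zero => simpa using continuous_const

lemma dd_nonneg (hd : ∀ f, 0 ≤ d f) (G : XS) : 0 ≤ dI d G := tint_nonneg fun _ => hd _

lemma sq_ZoX_le {e : XS → ℝ} (he : ∀ G, 0 ≤ e G) (n : ℕ) (z : Option (Ix ⊕ Ix)) (G : XS) :
    sq ZX e n (ZoX z G) ≤ sq ZX e (n + 1) G := by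
  rcases z with _ | z
  · exact sq_mono he (Nat.le_succ n) G
  · exact sq_Z_le he n z G

lemma ZoX_le {e : XS → ℝ} (he : ∀ G, 0 ≤ e G) (z : Option (Ix ⊕ Ix)) (G : XS) :
    e (ZoX z G) ≤ sq ZX e 2 G := by
  simpa only [sq_one] using sq_ZoX_le he 1 z G

lemma Cf.bound (c : Cf) (a b : ℝ) : ∃ M, 0 < M ∧ ∀ s ∈ Icc a b, ∀ x, |c.c s x| ≤ M :=
  exists_bound_of_per c.sm.cont c.per isCompact_Icc

/-- Integration of a pointwise form bound. -/
lemma abs_tint_mul_le (hdc : Continuous d) {w φ : E3 → ℝ} {M α β γ δ : ℝ} (G H : XS)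
    (hw : ∀ x, |w x| ≤ M) (hφ : ∀ x, |φ x| ≤ α * d (G.1 x) + β * d (H.1 x) +
      γ * ip (G.1 x) (G.1 x) + δ * ip (H.1 x) (H.1 x)) :
    |tint fun x => w x * φ x| ≤
      M * (α * dI d G + β * dI d H + γ * bX.B G G + δ * bX.B H H) := by
  have c1 : Continuous fun x => α * d (G.1 x) := continuous_const.mul (hdc.comp (XS.sm G).cont)
  have c2 : Continuous fun x => β * d (H.1 x) := continuous_const.mul (hdc.comp (XS.sm H).cont)
  have c3 : Continuous fun x => γ * ip (G.1 x) (G.1 x) := continuous_const.mul (XS.cont_ip _ _)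
  have c4 : Continuous fun x => δ * ip (H.1 x) (H.1 x) := continuous_const.mul (XS.cont_ip _ _)
  have c5 : Continuous fun x => α * d (G.1 x) + β * d (H.1 x) := c1.add c2
  have c6 : Continuous fun x => α * d (G.1 x) + β * d (H.1 x) + γ * ip (G.1 x) (G.1 x) :=
    c5.add c3
  simp only [dI, bX_B]
  rw [← tint_const_mul α, ← tint_const_mul β, ← tint_const_mul γ, ← tint_const_mul δ,
    ← tint_add c1 c2, ← tint_add c5 c3, ← tint_add c6 c4, ← tint_const_mul]
  refine abs_tint_le_of_abs_le (continuous_const.mul (c6.add c4)) fun x => ?_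
  rw [abs_mul]
  exact mul_le_mul (hw x) (hφ x) (abs_nonneg _) ((abs_nonneg _).trans (hw x))

lemma bX_tm (c : Cf) (B : SV →L[ℝ] SV) (z : Option (Ix ⊕ Ix)) (s : ℝ) (G H : XS) :
    bX.B (tm c B z s G) H = tint fun x => c.c s x * ip (B ((ZoX z G).1 x)) (H.1 x) :=
  tint_congr fun x => by rw [tm_apply, map_smul, LinearMap.smul_apply, smul_eq_mul]

lemma abs_bX_rk_le (φ ψ : Vf) (a b : ℝ) : ∃ C, 0 ≤ C ∧ ∀ s ∈ Icc a b, ∀ G H,
    |bX.B (rk φ ψ s G) H| ≤ C * (bX.B G G + bX.B H H) := by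
  obtain ⟨C1, h1, h1'⟩ := φ.bdd_nX a b
  obtain ⟨C2, h2, h2'⟩ := ψ.bdd_nX a b
  refine ⟨C2 * C1, by positivity, fun s hs G H => ?_⟩
  rw [rk_apply, map_smul, LinearMap.smul_apply, smul_eq_mul, abs_mul, ← PD.nr_sq, ← PD.nr_sq]
  have h3 := bX.nr_nonneg G
  have h4 := bX.nr_nonneg H
  have h5 := (bX.abs_B_le (ψ.at s) G).trans (mul_le_mul_of_nonneg_right (h2' s hs) h3)
  have h6 := (bX.abs_B_le (φ.at s) H).trans (mul_le_mul_of_nonneg_right (h1' s hs) h4)
  have h7 := mul_le_mul h5 h6 (abs_nonneg _) (by positivity)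
  have h8 : bX.nr G * bX.nr H ≤ bX.nr G ^ 2 + bX.nr H ^ 2 := by
    nlinarith [sq_nonneg (bX.nr G - bX.nr H)]
  nlinarith [mul_le_mul_of_nonneg_left h8 (mul_nonneg h2 h1)]

theorem Gen.tame (hdc : Continuous d) (hd : ∀ f, 0 ≤ d f) (h0 : ∀ B, P0 B → V0 d B)
    (h1 : ∀ B, P1 B → V1 d B) (a b : ℝ) {A : ℝ → XS →ₗ[ℝ] XS} (hA : Gen P0 P1 A) :
    Tame ZX bX (dI d) (Icc a b) A := by
  have hdd := dd_nonneg hd
  induction hA with
  | t0 c B z hB =>
    intro ε hε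
    obtain ⟨M, hM, hM'⟩ := c.bound a b
    obtain ⟨C, hC, h⟩ := h0 B hB (ε / M) (by positivity)
    refine ⟨M * C, by positivity, fun s hs G H => ?_⟩
    rw [bX_tm]
    refine (abs_tint_mul_le hdc (α := ε / M) (β := ε / M) (γ := C) (δ := C) (ZoX z G) H (hM' s hs)
      fun x => by linarith [h ((ZoX z G).1 x) (H.1 x)]).trans ?_
    have e : M * (ε / M) = ε := by field_simp
    have h2 := mul_le_mul_of_nonneg_left (ZoX_le hdd z G) hε.le
    have h3 := mul_le_mul_of_nonneg_left (ZoX_le (e := nX) bX.nonneg z G) (mul_nonneg hM.le hC)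
    have h4 := mul_nonneg (mul_nonneg hM.le hC) (hdd G)
    calc _ = (M * (ε / M)) * (dI d (ZoX z G) + dI d H) +
          M * C * (bX.B (ZoX z G) (ZoX z G) + bX.B H H) := by ring
      _ ≤ _ := by rw [e]; linarith
  | t1 c B hB =>
    intro ε hε
    obtain ⟨M, hM, hM'⟩ := c.bound a b
    obtain ⟨C, hC, h⟩ := h1 B hB (ε / M) (by positivity)
    refine ⟨M * C, by positivity, fun s hs G H => ?_⟩
    rw [bX_tm]
    refine (abs_tint_mul_le hdc (α := C) (β := ε / M) (γ := 0) (δ := C) G H (hM' s hs)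
      fun x => by
        have := h (G.1 x) (H.1 x)
        change |ip (B (G.1 x)) (H.1 x)| ≤ _
        linarith).trans ?_
    have e : M * (ε / M) = ε := by field_simp
    have h2 := mul_nonneg hε.le (sq_nonneg' (Z := ZX) hdd 2 G)
    have h3 := mul_nonneg (mul_nonneg hM.le hC) (sq_nonneg' (Z := ZX) (d := nX) bX.nonneg 2 G)
    calc _ = (M * (ε / M)) * dI d H + M * C * (dI d G + bX.B H H) := by ring
      _ ≤ _ := by rw [e]; linarith
  | rk φ ψ =>
    intro ε hε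
    obtain ⟨C, hC, h⟩ := abs_bX_rk_le φ ψ a b
    refine ⟨C, hC, fun s hs G H => (h s hs G H).trans ?_⟩
    have h2 := mul_nonneg hε.le (add_nonneg (sq_nonneg' (Z := ZX) hdd 2 G) (hdd H))
    have h3 := mul_le_mul_of_nonneg_left (ZoX_le (e := nX) bX.nonneg none G) hC
    have h4 := mul_nonneg hC (hdd G)
    change C * bX.B G G ≤ _ at h3
    linarith
  | add _ _ ih ih' =>
    intro ε hε
    obtain ⟨C1, hC1, h2⟩ := ih (ε / 2) (by positivity)
    obtain ⟨C2, hC2, h3⟩ := ih' (ε / 2) (by positivity)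
    refine ⟨C1 + C2, by positivity, fun s hs G H => ?_⟩
    simp only [Pi.add_apply, LinearMap.add_apply, map_add]
    refine (abs_add_le _ _).trans ?_
    linarith [h2 s hs G H, h3 s hs G H]
  | neg _ ih =>
    intro ε hε
    obtain ⟨C1, hC1, h2⟩ := ih ε hε
    refine ⟨C1, hC1, fun s hs G H => ?_⟩
    simpa only [Pi.neg_apply, LinearMap.neg_apply, map_neg, abs_neg] using h2 s hs G H
  | zero =>
    intro ε hε
    refine ⟨0, le_rfl, fun s hs G H => ?_⟩
    simpa using mul_nonneg hε.le (add_nonneg (sq_nonneg' (Z := ZX) hdd 2 G) (hdd H))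

lemma bdd_tm (c : Cf) (B : SV →L[ℝ] SV) (z : Option (Ix ⊕ Ix)) (a b : ℝ) :
    Bdd ZX bX (Icc a b) (tm c B z) := by
  obtain ⟨M, hM, hM'⟩ := c.bound a b
  obtain ⟨m, C, hC, h⟩ := exists_bound_clm B
  refine ⟨m + 1 + 1, M ^ 2 * C, by positivity, fun s hs G => ?_⟩
  have h1 : bX.B (tm c B z s G) (tm c B z s G) ≤
      M ^ 2 * C * tint fun x => nA m ((ZoX z G).1 x) := by
    rw [← tint_const_mul]
    refine tint_mono (XS.cont_ip _ _) (continuous_const.mul ((XS.sm _).nA m).cont) fun x => ?_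
    simp only [tm_apply, map_smul, LinearMap.smul_apply, smul_eq_mul]
    have h2 : c.c s x ^ 2 ≤ M ^ 2 := by
      rw [← sq_abs]; exact pow_le_pow_left₀ (abs_nonneg _) (hM' s hs x) 2
    have h3 := mul_le_mul h2 (h ((ZoX z G).1 x)) (ip_self_nonneg _) (sq_nonneg M)
    nlinarith
  refine h1.trans (mul_le_mul_of_nonneg_left ?_ (by positivity))
  exact (tint_nA_le m _).trans ((lq_le_sq bX.nonneg _ _).trans (sq_ZoX_le bX.nonneg _ z G))

theorem Gen.bdd (a b : ℝ) {A : ℝ → XS →ₗ[ℝ] XS} (hA : Gen P0 P1 A) : Bdd ZX bX (Icc a b) A := by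
  induction hA with
  | t0 c B z _ => exact bdd_tm c B z a b
  | t1 c B _ => exact bdd_tm c B none a b
  | rk φ ψ =>
    obtain ⟨C1, h1, h1'⟩ := φ.bdd_nX a b
    obtain ⟨C2, h2, h2'⟩ := ψ.bdd_nX a b
    refine ⟨1, (C2 * C1) ^ 2, by positivity, fun s hs G => ?_⟩
    rw [sq_one, ← PD.nr_sq, ← PD.nr_sq, ← mul_pow, rk_apply, PD.nr_smul]
    have h3 := bX.nr_nonneg G
    have h5 := (bX.abs_B_le (ψ.at s) G).trans (mul_le_mul_of_nonneg_right (h2' s hs) h3)
    have h6 := mul_le_mul h5 (h1' s hs) (bX.nr_nonneg _) (by positivity)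
    exact pow_le_pow_left₀ (mul_nonneg (abs_nonneg _) (bX.nr_nonneg _)) (by linarith) 2
  | @add A A' _ _ ih ih' =>
    obtain ⟨m1, C1, hC1, h2⟩ := ih
    obtain ⟨m2, C2, hC2, h3⟩ := ih'
    refine ⟨m1 + m2, 2 * C1 + 2 * C2, by positivity, fun s hs G => ?_⟩
    have h4 := lq_add_le (Z := ZX) bX 0 (A s G) (A' s G)
    have h5 := mul_le_mul_of_nonneg_left
      (sq_mono (Z := ZX) (d := nX) bX.nonneg (Nat.le_add_right m1 m2) G) hC1
    have h6 := mul_le_mul_of_nonneg_left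
      (sq_mono (Z := ZX) (d := nX) bX.nonneg (Nat.le_add_left m2 m1) G) hC2
    simp only [lq] at h4
    simp only [Pi.add_apply, LinearMap.add_apply]
    linarith [h2 s hs G, h3 s hs G]
  | neg _ ih =>
    obtain ⟨m1, C1, hC1, h2⟩ := ih
    refine ⟨m1, C1, hC1, fun s hs G => ?_⟩
    simpa only [Pi.neg_apply, LinearMap.neg_apply, map_neg, neg_neg] using h2 s hs G
  | zero => exact ⟨0, 0, le_rfl, fun s hs G => by simp⟩

end Pool.Agent.BoltzM.Solver
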