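import Pool.Agent.BoltzM.Herm.Poly

/-!
Module M3 of the Boltzmann project: statement of the linear kinetic solver.
-/

set_option autoImplicit false

open MeasureTheory Pool.Agent.BoltzM.BoltzC

noncomputable section

namespace Pool.Agent.BoltzM.Solver

variable [Dim]

/-- Multiplication by the monomial `V_{i_1} ... V_{i_m}`. -/
def mulW : List Ix → SV →L[ℝ] SV
  | [] => ContinuousLinearMap.id ℝ SV
  | i :: w => (mulV i).comp (mulW w)

@[simp] lemma mulW_nil (f : SV) : mulW [] f = f := rfl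

@[simp] lemma mulW_cons (i : Ix) (w : List Ix) (f : SV) :
    mulW (i :: w) f = mulV i (mulW w f) := rfl

/-- The six first order letters: `x`-derivatives and creation operators. -/
def Zl : Ix ⊕ Ix → (E3 → SV) → E3 → SV
  | Sum.inl i, G => dX i G
  | Sum.inr j, G => fun x => ap j (G x)

/-- A letter or nothing. -/
def Zo : Option (Ix ⊕ Ix) → (E3 → SV) → E3 → SV
  | none, G => G
  | some z, G => Zl z G

@[simp] lemma Zo_none (G : E3 → SV) : Zo none G = G := rfl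

@[simp] lemma Zo_dX (i : Ix) (G : E3 → SV) : Zo (some (Sum.inl i)) G = dX i G := rfl

@[simp] lemma Zo_ap (j : Ix) (G : E3 → SV) (x : E3) :
    Zo (some (Sum.inr j)) G x = ap j (G x) := rfl

/-- The collision facts used by the solver; `Γ φ f` is the symmetrised collision operator and
`-Γ sqMS` the linearised operator. -/
structure CollData (Γ : SV → SV →L[ℝ] SV) : Prop where
  leib : ∀ j φ f, ap j (Γ φ f) = Γ (ap j φ) f + Γ φ (ap j f)
  dis_nonneg : ∀ f, 0 ≤ -ip (Γ sqMS f) f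
  tri : ∀ φ, ∃ C : ℝ, ∀ f h, |ip (Γ φ f) h| ≤
    C * √(-ip (Γ sqMS f) f + ip f f) * √(-ip (Γ sqMS h) h + ip h h)
  wgt : ∃ C : ℝ, ∀ f : SV, ∫ v, (1 + ‖v‖) ^ 8 * f v ^ 2 ≤ C * (-ip (Γ sqMS f) f + ip f f)

/-- M3: global solvability, for `s ≥ s0`, of
`g' + Σ_t c_t V^(α_t) Z_t g + k L g + Σ_j <g, ψ_j> φ_j = F` in the smooth periodic class. -/
def M3Stmt : Prop :=
  ∀ (Γ : SV → SV →L[ℝ] SV), CollData Γ →
  ∀ (s0 : ℝ) (ι κ : Type) [Fintype ι] [Fintype κ]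
    (c : ι → ℝ → E3 → ℝ) (α : ι → List Ix) (z : ι → Option (Ix ⊕ Ix))
    (k : ℝ → E3 → ℝ) (φ ψ : κ → ℝ → E3 → SV) (F : ℝ → E3 → SV) (g0 : E3 → SV),
    (∀ t, SmC (c t)) → (∀ t s, Per (c t s)) → (∀ t, (α t).length ≤ 2) →
    SmC k → (∀ s, Per (k s)) → (∀ s, s0 ≤ s → ∀ x, 0 < k s x) →
    (∀ j, SmC (φ j)) → (∀ j s, Per (φ j s)) → (∀ j, SmC (ψ j)) → (∀ j s, Per (ψ j s)) →
    SmC F → (∀ s, Per (F s)) → Sm g0 → Per g0 →
    ∃ g g' : ℝ → E3 → SV, SmD g g' ∧ (∀ s, Per (g s)) ∧ (∀ s, Per (g' s)) ∧ g s0 = g0 ∧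
      ∀ s, s0 ≤ s → ∀ x,
        g' s x + ∑ t, c t s x • mulW (α t) (Zo (z t) (g s) x) + k s x • (-Γ sqMS (g s x))
          + ∑ j, tint (fun y => ip (g s y) (ψ j s y)) • φ j s x = F s x

end Pool.Agent.BoltzM.Solver
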