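import Pool.Agent.BoltzM.Solver.Bil
import Pool.Agent.BoltzM.Solver.Mul

/-!
The solver for the damped equations: the dissipation contains the weight of degree eight.
-/

set_option autoImplicit false

open MeasureTheory Set Finset Pool.Agent.BoltzM.BoltzC

noncomputable section

namespace Pool.Agent.BoltzM.Solver

variable [Dim]

/-- The collision facts used by the damped solver. -/
structure CD0 (Γ : SV → SV →L[ℝ] SV) : Prop where
  leib : ∀ j φ f, ap j (Γ φ f) = Γ (ap j φ) f + Γ φ (ap j f)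
  dis_nonneg : ∀ f, 0 ≤ -ip (Γ sqMS f) f
  tri : ∀ φ, ∃ C : ℝ, ∀ f h, |ip (Γ φ f) h| ≤
    C * √(-ip (Γ sqMS f) f + ip f f) * √(-ip (Γ sqMS h) h + ip h h)

/-- The collision dissipation. -/
def dq0 (Γ : SV → SV →L[ℝ] SV) (f : SV) : ℝ := -ip (Γ sqMS f) f + ip f f

/-- The full dissipation. -/
def d8 (Γ : SV → SV →L[ℝ] SV) (f : SV) : ℝ := dq0 Γ f + ip (w8 f) f

variable {Γ : SV → SV →L[ℝ] SV}

lemma CD0.ip_le_dq0 (h : CD0 Γ) (f : SV) : ip f f ≤ dq0 Γ f := by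
  linarith [h.dis_nonneg f, show dq0 Γ f = -ip (Γ sqMS f) f + ip f f from rfl]

lemma CD0.dq0_nonneg (h : CD0 Γ) (f : SV) : 0 ≤ dq0 Γ f :=
  (ip_self_nonneg f).trans (h.ip_le_dq0 f)

lemma dq0_le_d8 (f : SV) : dq0 Γ f ≤ d8 Γ f := le_add_of_nonneg_right (ip_w8_nonneg f)

lemma CD0.ip_le_d8 (h : CD0 Γ) (f : SV) : ip f f ≤ d8 Γ f := (h.ip_le_dq0 f).trans (dq0_le_d8 f)

lemma CD0.d8_nonneg (h : CD0 Γ) (f : SV) : 0 ≤ d8 Γ f := (ip_self_nonneg f).trans (h.ip_le_d8 f)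

lemma CD0.wgt (h : CD0 Γ) : ∃ C : ℝ, ∀ f : SV, ∫ v, (1 + ‖v‖) ^ 8 * f v ^ 2 ≤ C * d8 Γ f :=
  ⟨16, fun f => by linarith [wgt_le_w8 f, h.dq0_nonneg f, show d8 Γ f = _ + _ from rfl]⟩

lemma continuous_d8 : Continuous (d8 Γ) :=
  ((continuous_ip.comp ((Γ sqMS).continuous.prodMk continuous_id)).neg.add
    (continuous_ip.comp (continuous_id.prodMk continuous_id))).add
    (continuous_ip.comp (w8.continuous.prodMk continuous_id))

lemma d8_smul (a : ℝ) (f : SV) : d8 Γ (a • f) = a ^ 2 * d8 Γ f := by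
  simp only [d8, dq0, map_smul, LinearMap.smul_apply, smul_eq_mul]; ring

lemma CD0.v1 (h : CD0 Γ) (φ : SV) : V1 (d8 Γ) (Γ φ) := by
  intro ε hε
  obtain ⟨C, hC⟩ := h.tri φ
  refine ⟨C ^ 2 / ε, by positivity, fun f g => (hC f g).trans ?_⟩
  change C * √(dq0 Γ f) * √(dq0 Γ g) ≤ _
  have h3 := Real.sq_sqrt (h.dq0_nonneg f)
  have h4 := Real.sq_sqrt (h.dq0_nonneg g)
  have h0 : 0 ≤ C ^ 2 / ε := by positivity
  have h5 := mul_nonneg h0 (ip_self_nonneg g)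
  set a := √(dq0 Γ f)
  set b := √(dq0 Γ g)
  have h6 : C * a * b ≤ ε * b ^ 2 + C ^ 2 / ε * a ^ 2 := by
    have : ε * b ^ 2 + C ^ 2 / ε * a ^ 2 - 2 * (C * a * b) = ε * (b - C * a / ε) ^ 2 := by
      field_simp; ring
    have h7 : 0 ≤ ε * (b - C * a / ε) ^ 2 := by positivity
    have h8 : 0 ≤ ε * b ^ 2 + C ^ 2 / ε * a ^ 2 := by positivity
    linarith
  rw [h3, h4] at h6
  have h7 := mul_le_mul_of_nonneg_left (dq0_le_d8 (Γ := Γ) g) hε.le
  have h8 := mul_le_mul_of_nonneg_left (dq0_le_d8 (Γ := Γ) f) h0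
  linarith

/-- The velocity operators of the order of the dissipation. -/
inductive PC (Γ : SV → SV →L[ℝ] SV) : (SV →L[ℝ] SV) → Prop
  | coll (φ : SV) : PC Γ (Γ φ)
  | mul {B : SV →L[ℝ] SV} : MulC 8 B → PC Γ B
  | fr {B : SV →L[ℝ] SV} : FR B → PC Γ B
  | sch (χ : SV) : PC Γ (mulS χ)
  | add {A B : SV →L[ℝ] SV} : PC Γ A → PC Γ B → PC Γ (A + B)
  | smul {A : SV →L[ℝ] SV} (c : ℝ) : PC Γ A → PC Γ (c • A)

lemma PC.neg {A : SV →L[ℝ] SV} (hA : PC Γ A) : PC Γ (-A) := by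
  simpa only [neg_smul, one_smul] using hA.smul (-1)

lemma PC.v1 (h : CD0 Γ) {B : SV →L[ℝ] SV} (hB : PC Γ B) : V1 (d8 Γ) B := by
  induction hB with
  | coll φ => exact h.v1 φ
  | mul hB => exact hB.v1 h.d8_nonneg h.wgt
  | fr hB => exact (hB.v0 h.d8_nonneg).v1 h.ip_le_d8
  | sch χ => exact (v0_mulS h.d8_nonneg χ).v1 h.ip_le_d8
  | add _ _ h1 h2 => exact h1.add h2
  | smul c _ h1 => exact h1.smul h.d8_nonneg c

lemma PC.adV (h : CD0 Γ) {B : SV →L[ℝ] SV} (hB : PC Γ B) (j : Ix) : PC Γ (adV j B) := by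
  induction hB with
  | coll φ =>
    have e : Solver.adV j (Γ φ) = Γ (ap j φ) := by
      ext1 f; simp only [adV_apply, h.leib]; abel
    rw [e]; exact .coll _
  | mul hB => exact .mul (hB.adV j)
  | fr hB => exact .fr (hB.adV j)
  | sch χ => rw [adV_mulS]; exact .sch _
  | add _ _ h1 h2 => rw [adV_add]; exact h1.add h2
  | smul c _ h1 => rw [adV_smul]; exact h1.smul c

lemma adm_mul (h : CD0 Γ) (c : Cf) (α : List Ix) (hα : α.length ≤ 2) (z : Option (Ix ⊕ Ix)) :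
    Adm (MulC 3) (PC Γ) (d8 Γ) (tm c (mulW α) z) := by
  have hd := h.d8_nonneg
  have h3 : MulC 3 (mulW α) := .base α (hα.trans (by norm_num))
  rcases z with _ | i | j
  · exact .tm_none continuous_d8 c h3 (h3.v0 hd h.wgt).vd
  · exact .tm_inl continuous_d8 c h3 i (h3.v0 hd h.wgt).vd (ip_mulW α)
  · exact .tm_inr continuous_d8 c h3 j (vd_mulW_ap hd h.wgt α hα j)

/-- The weight of degree three is small with respect to the weight of degree eight. -/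
lemma wgt3_le {ε : ℝ} (hε : 0 < ε) : ∃ C : ℝ, ∀ f : SV,
    ∫ v, (1 + ‖v‖) ^ 3 * f v ^ 2 ≤ ε * ip (w8 f) f + C * ip f f := by
  refine ⟨(ε / 16)⁻¹ ^ 3, fun f => ?_⟩
  have i1 := integrable_wgt 8 f
  have i3 : Integrable fun v => f v ^ 2 := by simpa using integrable_wgt 0 f
  have h1 : ∫ v, (1 + ‖v‖) ^ 3 * f v ^ 2 ≤
      ∫ v, (ε / 16 * ((1 + ‖v‖) ^ 8 * f v ^ 2) + (ε / 16)⁻¹ ^ 3 * f v ^ 2) := by
    refine integral_mono (integrable_wgt 3 f) ((i1.const_mul _).add (i3.const_mul _)) fun v => ?_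
    have h2 := mul_le_mul_of_nonneg_right (cube_le (le_add_of_nonneg_right (norm_nonneg v))
      (show 0 < ε / 16 by positivity)) (sq_nonneg (f v))
    simp only
    linarith
  rw [integral_add (i1.const_mul _) (i3.const_mul _), integral_const_mul, integral_const_mul,
    ← ip_self_eq] at h1
  have h2 := mul_le_mul_of_nonneg_left (wgt_le_w8 f) (show 0 ≤ ε / 16 by positivity)
  linarith

/-- The solver with collision, damping, a Schwartz multiplier and a bilinear term. -/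
theorem solver_twin (h : CD0 Γ) {G : SV →ₗ[ℝ] SV →ₗ[ℝ] SV} (hG : BilData (d8 Γ) G)
    {A : ℝ → XS →ₗ[ℝ] XS} (hA : Adm (MulC 3) (PC Γ) (d8 Γ) A) {B : SV →L[ℝ] SV} (hB : PC Γ B)
    (hB' : ∃ C : ℝ, ∀ f, ip (w8 f) f ≤ 2 * ip (B f) f + C * ip f f)
    (k μ ν κ : Cf) (χ : SV) (ρ : Vf) (s0 : ℝ) (hk : ∀ s, s0 ≤ s → ∀ x, 0 < k.c s x)
    (hμ : ∀ s, s0 ≤ s → ∀ x, 0 < μ.c s x)
    (hρ : ∀ a, ∃ C : ℝ, ∀ s ∈ Icc s0 a, ∀ x f, -(κ.c s x * ip (G (ρ.f s x) f) f) ≤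
      k.c s x / 2 * dq0 Γ f + C * ∫ v, (1 + ‖v‖) ^ 3 * f v ^ 2) (F : Vf) (g0 : XS) :
    ∃ g g' : ℝ → XS, SmD (fun s => (g s).1) (fun s => (g' s).1) ∧ g s0 = g0 ∧
      ∀ s, s0 ≤ s → ∀ x, (g' s).1 x + (A s (g s)).1 x + (k.c s x • (-Γ sqMS ((g s).1 x)) +
        μ.c s x • B ((g s).1 x) + ν.c s x • mulS χ ((g s).1 x) +
        κ.c s x • G (ρ.f s x) ((g s).1 x)) = F.f s x := by
  have hd := h.d8_nonneg
  refine solver_gen2 hG continuous_d8 hd (fun _ hB => ⟨hB.v0 hd h.wgt, hB.adV⟩)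
    (fun _ hB => ⟨hB.v1 h, hB.adV h⟩) hA
    (A' := tm k (-Γ sqMS) none + tm μ B none + tm ν (mulS χ) none + tb hG.cont κ ρ)
    ((Gen2.base (((Gen.t1 _ _ (PC.coll _).neg).add (.t1 _ _ hB)).add
      (.t1 _ _ (.sch χ)))).add (.tb _ _)) s0 (fun a => ?_) F g0
  obtain ⟨k0, hk0, hk1⟩ := exists_lower_bound_of_per k.sm.cont k.per
    (isCompact_Icc (a := s0) (b := a)) fun s hs => hk s hs.1
  obtain ⟨m0, hm0, hm1⟩ := exists_lower_bound_of_per μ.sm.cont μ.per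
    (isCompact_Icc (a := s0) (b := a)) fun s hs => hμ s hs.1
  obtain ⟨K, hK, hK'⟩ := k.bound s0 a
  obtain ⟨M, hM, hM'⟩ := μ.bound s0 a
  obtain ⟨N, hN, hN'⟩ := ν.bound s0 a
  obtain ⟨C1, hC1⟩ := hB'
  obtain ⟨C2, hC2⟩ := hρ a
  obtain ⟨C3, hC3, h3⟩ := v0_mulS (d := fun f => ip f f) ip_self_nonneg χ 1 one_pos
  obtain ⟨C4, hC4⟩ := wgt3_le (show 0 < m0 / 4 / (|C2| + 1) by positivity)
  refine ⟨min (k0 / 2) (m0 / 4), K + M * |C1| + N * (2 + 2 * C3) + |C2| * C4, by positivity,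
    fun s hs H x => ?_⟩
  change _ ≤ ip (k.c s x • (-Γ sqMS (H.1 x)) + μ.c s x • B (H.1 x) + ν.c s x • mulS χ (H.1 x) +
    κ.c s x • G (ρ.f s x) (H.1 x)) (H.1 x)
  set f := H.1 x
  simp only [map_add, map_smul, map_neg, LinearMap.add_apply, LinearMap.smul_apply,
    LinearMap.neg_apply, smul_eq_mul]
  have hf := ip_self_nonneg f
  have hw := ip_w8_nonneg f
  have hq := h.dq0_nonneg f
  have e0 : -ip (Γ sqMS f) f = dq0 Γ f - ip f f := by rw [dq0]; ring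
  have a1 := mul_le_mul_of_nonneg_right ((le_abs_self _).trans (hK' s hs x)) hf
  have a2 := mul_le_mul_of_nonneg_right (hk1 s hs x) hq
  have a3 := mul_le_mul_of_nonneg_left ((hC1 f).trans (add_le_add_right
    (mul_le_mul_of_nonneg_right (le_abs_self C1) hf) _)) (hμ s hs.1 x).le
  have a4 := mul_le_mul_of_nonneg_right (hm1 s hs x) hw
  have a5 := mul_le_mul_of_nonneg_right ((le_abs_self _).trans (hM' s hs x))
    (mul_nonneg (abs_nonneg C1) hf)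
  have a6 : |ν.c s x * ip (mulS χ f) f| ≤ N * ((2 + 2 * C3) * ip f f) := by
    rw [abs_mul]
    exact mul_le_mul (hN' s hs x) (by linarith [h3 f f]) (abs_nonneg _) hN.le
  have a7 : C2 * ∫ v, (1 + ‖v‖) ^ 3 * f v ^ 2 ≤ m0 / 4 * ip (w8 f) f + |C2| * C4 * ip f f := by
    have b1 : 0 ≤ ∫ v, (1 + ‖v‖) ^ 3 * f v ^ 2 := integral_nonneg fun v => by positivity
    have b2 := mul_le_mul_of_nonneg_right (le_abs_self C2) b1
    have b3 := mul_le_mul_of_nonneg_left (hC4 f) (abs_nonneg C2)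
    have b4 : |C2| * (m0 / 4 / (|C2| + 1)) ≤ m0 / 4 := by
      rw [mul_div_assoc', div_le_iff₀ (by positivity)]; nlinarith
    have b5 := mul_le_mul_of_nonneg_right b4 hw
    nlinarith
  have a8 := mul_le_mul_of_nonneg_right (min_le_left (k0 / 2) (m0 / 4)) hq
  have a9 := mul_le_mul_of_nonneg_right (min_le_right (k0 / 2) (m0 / 4)) hw
  have a10 := mul_nonneg (mul_nonneg hM.le (abs_nonneg C1)) hf
  rw [e0, d8]
  nlinarith [hC2 s hs x f, (abs_le.1 a6).1]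

/-! ### The damping operator -/

/-- The damping operator. -/
def dmp : SV →L[ℝ] SV := w8 + (-1 : ℝ) • PP.comp w8 + (-1 : ℝ) • w8.comp PP + (PP.comp w8).comp PP

lemma dmp_apply (f : SV) : dmp f = w8 (f - PP f) - PP (w8 (f - PP f)) := by
  simp only [dmp, add_apply, ContinuousLinearMap.comp_apply, map_sub, neg_smul, one_smul,
    neg_apply]
  abel

lemma pc_dmp : PC Γ dmp :=
  (((PC.mul mulC_w8).add (PC.smul _ (.fr (fr_PP_comp mulC_w8.symm)))).add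
    (PC.smul _ (.fr (fr_comp_PP _)))).add (.fr (fr_comp_PP _))

lemma w8_le_dmp : ∃ C : ℝ, ∀ f, ip (w8 f) f ≤ 2 * ip (dmp f) f + C * ip f f := by
  obtain ⟨C, -, hC⟩ := (fr_comp_PP (PP.comp w8)).v0 (d := fun f => ip f f) ip_self_nonneg 1 one_pos
  refine ⟨2 * (2 + 2 * C), fun f => ?_⟩
  have h1 : ip (dmp f) f = ip (w8 (f - PP f)) (f - PP f) := by
    rw [dmp_apply, map_sub ip, LinearMap.sub_apply, ip_PP, map_sub (ip _)]
  have h2 : ip (w8 (PP f)) (PP f) ≤ (2 + 2 * C) * ip f f := by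
    have h3 := (le_abs_self _).trans (hC f f)
    simp only [ContinuousLinearMap.comp_apply, ip_PP] at h3
    linarith
  have h3 := ip_w8_nonneg (f - PP f - PP f)
  have h4 := mulC_w8.symm (PP f) f
  rw [ip_comm (PP f)] at h4
  simp only [map_sub, LinearMap.sub_apply] at h1 h3
  linarith

lemma bilData_zero {d : SV → ℝ} : BilData d 0 :=
  ⟨continuous_const, by simp, ⟨0, 0, le_rfl, by simp⟩, ⟨0, 0, le_rfl, by simp⟩⟩

/-- From the additive form of the trilinear bound to the scaled form. -/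
lemma tri_scale {d : SV → ℝ} (hd : ∀ (a : ℝ) f, d (a • f) = a ^ 2 * d f)
    {T : SV →ₗ[ℝ] SV} {K : ℝ} (h : ∀ f g, |ip (T f) g| ≤ K * (d f + d g)) (f g : SV) {l : ℝ}
    (hl : 0 < l) : |ip (T f) g| ≤ K * (l * d f + l⁻¹ * d g) := by
  have h1 := h (√l • f) ((√l)⁻¹ • g)
  have h2 : 0 < √l := Real.sqrt_pos.2 hl
  rw [hd, hd, inv_pow, Real.sq_sqrt hl.le] at h1
  simp only [map_smul, LinearMap.smul_apply, smul_eq_mul] at h1
  rwa [← mul_assoc, inv_mul_cancel₀ h2.ne', one_mul] at h1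

end Pool.Agent.BoltzM.Solver
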